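import Pool.Agent.MP_20b2fd_nt.F5.Spec
import Pool.Agent.MP_20b2fd_nt.H39.SpecM

/-! The arithmetic functions of the moments are multiplicative. -/

set_option autoImplicit false

namespace Pool.Agent.MP_20b2fd_nt.H20

open Finset ArithmeticFunction H38 H39 F5
open Pool.Agent.MP_c5bf7b_nt.H38 (Ch)

namespace ApA

theorem conv {f g : ℕ → ℂ} (hf : Mu f) (hg : Mu g) :
    Mu fun n => ∑ x ∈ n.divisorsAntidiagonal, f x.1 * g x.2 := by
  have key : ∀ h : ℕ → ℂ, Mu h → ∃ H : ArithmeticFunction ℂ, H.IsMultiplicative ∧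
      ∀ n, n ≠ 0 → H n = h n := fun h hh => by
    refine ⟨⟨fun n => if n = 0 then 0 else h n, if_pos rfl⟩, ?_, fun n hn => if_neg hn⟩
    refine IsMultiplicative.iff_ne_zero.2 ⟨hh.1, fun {m n} hm hn c => ?_⟩
    change (if m * n = 0 then 0 else h (m * n)) =
      (if m = 0 then 0 else h m) * if n = 0 then 0 else h n
    rw [if_neg hm, if_neg hn, if_neg (mul_ne_zero hm hn), hh.2 m n c]
  obtain ⟨F, F1, F2⟩ := key f hf
  obtain ⟨G, G1, G2⟩ := key g hg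
  have e : ∀ n, ∑ x ∈ n.divisorsAntidiagonal, f x.1 * g x.2 = (F * G) n := fun n => by
    rw [ArithmeticFunction.mul_apply]
    exact sum_congr rfl fun x hx => by
      rw [F2 _ (Nat.left_ne_zero_of_mem_divisorsAntidiagonal hx),
        G2 _ (Nat.right_ne_zero_of_mem_divisorsAntidiagonal hx)]
  simp only [e]
  exact ⟨(F1.mul G1).1, fun m n c => (F1.mul G1).map_mul_of_coprime c⟩

theorem mul {f g : ℕ → ℂ} (hf : Mu f) (hg : Mu g) : Mu fun n => f n * g n :=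
  ⟨by simp [hf.1, hg.1], fun m n c => by simp only [hf.2 m n c, hg.2 m n c]; ring⟩

theorem pw (s : ℂ) : Mu fun n => (n : ℂ) ^ s :=
  ⟨by simp, fun m n _ => by simp only [Nat.cast_mul]; exact Complex.natCast_mul_natCast_cpow m n s⟩

theorem ch {D : ℕ} (χ : Ch D) : Mu fun n => χ n :=
  ⟨by simp, fun m n _ => by simp only [Nat.cast_mul, map_mul]⟩

theorem mo : Mu fun n => (moebius n : ℂ) :=
  ⟨by simp, fun m n c => by
    simp only [isMultiplicative_moebius.map_mul_of_coprime c, Int.cast_mul]⟩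

theorem ta : Mu fun n => ((tau n : ℝ) : ℂ) :=
  ⟨by simp [tau], fun m n c => by simp [tau, c.card_divisors_mul]⟩

theorem at1 (F : ℕ → ℕ → ℂ) {p : ℕ} (hp : p.Prime) :
    ∑ x ∈ p.divisorsAntidiagonal, F x.1 x.2 = F p 1 + F 1 p := by
  rw [Nat.sum_divisorsAntidiagonal F, hp.sum_divisors, Nat.div_self hp.pos, Nat.div_one]

theorem at2 (F : ℕ → ℕ → ℂ) {p : ℕ} (hp : p.Prime) :
    ∑ x ∈ (p ^ 2).divisorsAntidiagonal, F x.1 x.2 = F 1 (p ^ 2) + F p p + F (p ^ 2) 1 := by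
  rw [Nat.sum_divisorsAntidiagonal F, Nat.sum_divisors_prime_pow hp, sum_range_succ,
    sum_range_succ, sum_range_one, pow_zero, pow_one, Nat.div_one,
    Nat.div_self (pow_pos hp.pos 2), sq, Nat.mul_div_cancel _ hp.pos]

end ApA

open ApA

theorem apS {D : ℕ} (χ : Ch D) (u w : ℂ) : AP χ w w u (Af χ u w) := by
  refine ⟨conv (mul (ch χ) (pw (-u)))
    (conv (mul (mul mo (ch χ)) (pw (-1 - u - 2 * w))) (mul ta (pw (-w)))), fun p hp => ?_⟩
  have p0 : (p : ℂ) ≠ 0 := by exact_mod_cast hp.ne_zero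
  have t1 : tau p = 2 := by simp [tau, hp.divisors, card_pair hp.one_lt.ne]
  have t2 : tau (p ^ 2) = 3 := by simp [tau, Nat.divisors_prime_pow hp]
  have t0 : tau 1 = 1 := by simp [tau]
  have e : (p : ℂ) ^ (-1 - u - 2 * w) = p ^ (-u) * (p ^ (-w)) ^ 2 / p := by
    rw [show -1 - u - 2 * w = -u + (-w + -w) - 1 by ring, Complex.cpow_sub _ _ p0,
      Complex.cpow_add _ _ p0, Complex.cpow_add _ _ p0, Complex.cpow_one, sq]
  have q : ∀ s : ℂ, ((p ^ 2 : ℕ) : ℂ) ^ s = ((p : ℂ) ^ s) ^ 2 := fun s => by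
    rw [sq, sq, Nat.cast_mul, Complex.natCast_mul_natCast_cpow]
  have m2 : moebius (p ^ 2) = 0 := moebius_apply_prime_pow hp two_ne_zero |>.trans (by simp)
  have c2 : χ ((p ^ 2 : ℕ) : ZMod D) = χ p ^ 2 := by rw [Nat.cast_pow, map_pow]
  obtain ⟨g, hg⟩ : ∃ g : ℕ → ℂ, g = fun n => ∑ y ∈ n.divisorsAntidiagonal,
      (moebius y.1 : ℂ) * χ y.1 * (y.1 : ℂ) ^ (-1 - u - 2 * w) *
        ((tau y.2 : ℝ) * (y.2 : ℂ) ^ (-w)) := ⟨_, rfl⟩
  have a : ∀ n, Af χ u w n = ∑ x ∈ n.divisorsAntidiagonal, χ x.1 * (x.1 : ℂ) ^ (-u) * g x.2 :=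
    fun n => by rw [hg, Af]
  have g0 : g 1 = 1 := by simp [hg, t0]
  have g1 : g p = 2 * p ^ (-w) - χ p * (p ^ (-u) * (p ^ (-w)) ^ 2 / p) := by
    rw [hg]
    dsimp only
    rw [at1 (fun a b => (moebius a : ℂ) * χ a * (a : ℂ) ^ (-1 - u - 2 * w) *
      ((tau b : ℝ) * (b : ℂ) ^ (-w))) hp, moebius_apply_prime hp, t0, t1, e]
    simp
    ring
  have g2 : g (p ^ 2) = 3 * (p ^ (-w)) ^ 2 -
      χ p * (p ^ (-u) * (p ^ (-w)) ^ 2 / p) * (2 * p ^ (-w)) := by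
    rw [hg]
    dsimp only
    rw [at2 (fun a b => (moebius a : ℂ) * χ a * (a : ℂ) ^ (-1 - u - 2 * w) *
      ((tau b : ℝ) * (b : ℂ) ^ (-w))) hp, moebius_apply_prime hp, m2, t1, t2, e, q (-w)]
    simp
    ring
  constructor
  · rw [a, at1 (fun a b => χ a * (a : ℂ) ^ (-u) * g b) hp, g0, g1, ap1]
    simp
    ring
  · rw [a, at2 (fun a b => χ a * (a : ℂ) ^ (-u) * g b) hp, g0, g1, g2, q, c2, ap2]
    simp
    ring

/-- the function of the first moment -/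
theorem mu_div {D : ℕ} (χ : Ch D) (u : ℂ) :
    Mu (fun l => ∑ d ∈ l.divisors, χ d * (d : ℂ) ^ (-u)) ∧ ∀ p : ℕ, p.Prime →
      ∑ d ∈ p.divisors, χ d * (d : ℂ) ^ (-u) = 1 + χ p * p ^ (-u) := by
  refine ⟨?_, fun p hp => by rw [hp.sum_divisors, add_comm]; simp⟩
  have := conv (mul (ch χ) (pw (-u))) (g := fun _ => 1) ⟨rfl, fun _ _ _ => by simp⟩
  simp only [mul_one] at this
  convert this using 2 with n
  exact (Nat.sum_divisorsAntidiagonal fun a _ => χ a * (a : ℂ) ^ (-u)).symm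

end Pool.Agent.MP_20b2fd_nt.H20
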