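import Pool.Agent.MP_20b2fd_nt.H38.SpecX

/-! The short mollifier with a smooth cutoff. -/

set_option autoImplicit false

namespace Pool.Agent.MP_20b2fd_nt.H20

open Finset H38

/-- a smooth cutoff, one on `[-(1 - ε), 1 - ε]` and zero outside `(-1, 1)` -/
noncomputable def Fw (ε u : ℝ) : ℝ :=
  Real.smoothTransition ((1 - u) / ε) * Real.smoothTransition ((1 + u) / ε)

/-- the logarithm of the length -/
noncomputable def LX (ε : ℝ) (N : ℕ) : ℝ := (1 / 2 - 2 * ε) * Real.log N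

noncomputable def KX (ε : ℝ) (N : ℕ) : ℕ := ⌊(N : ℝ) ^ (1 / 2 - 2 * ε)⌋₊

open Classical in
noncomputable def wX (ε : ℝ) (N k : ℕ) : ℝ :=
  if Squarefree k ∧ k.Coprime 30 then (k : ℝ) / k.totient * Fw ε (Real.log k / LX ε N) else 0

noncomputable def JX (ε : ℝ) (N : ℕ) : Finset (ℕ × ℕ) := J0 1 ×ˢ Icc 1 (KX ε N)

noncomputable def xX (ε : ℝ) (N : ℕ) (i : ℕ × ℕ) : ℝ := Dj 1 i.1 * xw (KX ε N) (wX ε N) i.2

/-- the size of the first moment -/
noncomputable def AN (N : ℕ) : ℝ := Vr 1 * (Real.log N / 2)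

theorem fw_smooth (ε : ℝ) (n : ℕ) : ContDiff ℝ n (Fw ε) :=
  (Real.smoothTransition.contDiff.comp ((contDiff_const.sub contDiff_id).div_const ε)).mul
    (Real.smoothTransition.contDiff.comp ((contDiff_const.add contDiff_id).div_const ε))

theorem fw_nonneg (ε u : ℝ) : 0 ≤ Fw ε u :=
  mul_nonneg (Real.smoothTransition.nonneg _) (Real.smoothTransition.nonneg _)

theorem fw_le (ε u : ℝ) : Fw ε u ≤ 1 :=
  mul_le_one₀ (Real.smoothTransition.le_one _) (Real.smoothTransition.nonneg _)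
    (Real.smoothTransition.le_one _)

theorem fw_zero {ε u : ℝ} (hε : 0 < ε) (h : 1 ≤ |u|) : Fw ε u = 0 := by
  rcases le_abs.1 h with h | h
  · rw [Fw, Real.smoothTransition.zero_of_nonpos
      (div_nonpos_of_nonpos_of_nonneg (by linarith) hε.le), zero_mul]
  · rw [Fw, Real.smoothTransition.zero_of_nonpos (x := (1 + u) / ε)
      (div_nonpos_of_nonpos_of_nonneg (by linarith) hε.le), mul_zero]

theorem fw_one {ε u : ℝ} (hε : 0 < ε) (h : |u| ≤ 1 - ε) : Fw ε u = 1 := by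
  obtain ⟨h1, h2⟩ := abs_le.1 h
  rw [Fw, Real.smoothTransition.one_of_one_le ((one_le_div hε).2 (by linarith)),
    Real.smoothTransition.one_of_one_le ((one_le_div hε).2 (by linarith)), one_mul]

theorem wX_ne {ε : ℝ} {N k : ℕ} (hε : 0 < ε) (h1 : ε < 1 / 4) (hN : 2 ≤ N) (h : wX ε N k ≠ 0) :
    Squarefree k ∧ k.Coprime 30 ∧ 1 ≤ k ∧ k ≤ KX ε N := by
  have a : Squarefree k ∧ k.Coprime 30 := by_contra fun e => h (if_neg e)
  have k1 : 1 ≤ k := Nat.pos_of_ne_zero a.1.ne_zero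
  have N1 : (1 : ℝ) < N := by exact_mod_cast hN
  have L0 : 0 < LX ε N := mul_pos (by linarith) (Real.log_pos N1)
  refine ⟨a.1, a.2, k1, Nat.le_floor ?_⟩
  rw [wX, if_pos a] at h
  have b : Real.log k / LX ε N < 1 := not_le.1 fun e =>
    right_ne_zero_of_mul h (fw_zero hε (e.trans (le_abs_self _)))
  rw [div_lt_one L0, LX, ← Real.log_rpow (by linarith)] at b
  exact ((Real.log_lt_log_iff (by exact_mod_cast k1) (by positivity)).1 b).le

/-- the short vector is admissible -/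
def XwS : Prop :=
  ∀ ε η E : ℝ, 0 < ε → 6 * ε ≤ η → η ≤ 1 → ∃ N₀ : ℕ, ∀ N : ℕ, N₀ ≤ N →
    1 ≤ AN N ∧ AN N ≤ Real.log N ∧ XOk (JX ε N) nn (xX ε N) N ε η (AN N) E

end Pool.Agent.MP_20b2fd_nt.H20
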