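import Pool.Agent.MP_20b2fd_nt.H38.Fin

/-! More than one half, or a zero at an absolute multiple of `1 / log N` from one whose
character has an arbitrarily small power of the level as a bound for its conductor. -/

set_option autoImplicit false

namespace Pool.Agent.MP_20b2fd_nt.H20

open Finset Filter Topology H38
open DirichletCharacter (LFunction)

/-- every small scale is allowed -/
def Fin2S : Prop :=
  ∀ c : ℝ, 0 < c → c ≤ 1 / 10 → ∃ δ₁ : ℝ, 0 < δ₁ ∧ ∀ δ : ℝ, 0 < δ → δ ≤ δ₁ → ∃ N₀ : ℕ, ∀ N : ℕ,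
    N₀ ≤ N → N.Prime → ZFree c (zz δ N) → 1 / 2 + δ / 200 ≤ ((Hn N).ncard : ℝ) / (Hp N).ncard

/-- an exceptional zero -/
def Exc (N : ℕ) (κ C : ℝ) : Prop :=
  ∃ (q : ℕ) (_ : NeZero q) (χ : DirichletCharacter ℂ q) (β : ℝ), χ.IsPrimitive ∧ χ ≠ 1 ∧
    χ ^ 2 = 1 ∧ (q : ℝ) ≤ (N : ℝ) ^ κ ∧ 1 - C / Real.log N ≤ β ∧ β < 1 ∧ LFunction χ β = 0

def Bey2S : Prop :=
  ∃ C₀ : ℝ, 0 < C₀ ∧ ∀ κ : ℝ, 0 < κ → ∃ δ : ℝ, 0 < δ ∧ ∃ N₀ : ℕ, ∀ N : ℕ, N₀ ≤ N → N.Prime →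
    1 / 2 + δ ≤ ((Hn N).ncard : ℝ) / (Hp N).ncard ∨ Exc N κ C₀

open FinA in
theorem fin2Of (hA : AutS) (hH : HmS) (hNu : NuS) (hNl : NlS) : Fin2S := by
  classical
  obtain ⟨C, c₀, hC, hA⟩ := hA
  obtain ⟨⟨cK, CK, hcK, hK⟩, hNu⟩ := hNu
  intro c hc hc1
  obtain ⟨C', hC', hNl⟩ := hNl C hC
  have hC0 : 0 < C' := zero_lt_one.trans_le hC'
  obtain ⟨b, hb, hbe⟩ : ∃ b : ℝ, 0 < b ∧ C' * b = cK / 200 :=
    ⟨cK / (200 * C'), by positivity, by field_simp⟩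
  obtain ⟨δ₀, hδ₀, hH⟩ := hH c C b c₀ hc hc1 hC hb
  refine ⟨min δ₀ (min (1 / b) 1), lt_min hδ₀ (lt_min (by positivity) one_pos), fun δ hδ hle => ?_⟩
  obtain ⟨h1, h2⟩ := le_min_iff.1 hle
  obtain ⟨h2, h3⟩ := le_min_iff.1 h2
  obtain ⟨N₁, hN₁⟩ := hNl (b * δ) (mul_pos hb hδ) (by rwa [le_div_iff₀' hb] at h2)
  obtain ⟨N₂, hN₂⟩ := hNu C (δ * cK / 200) hC (by positivity)
  obtain ⟨N₃, hN₃⟩ := unif (P := fun a N => ∀ S : Sp, N.Prime → ZFree c (zz δ N) → S.Ok N C →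
      (∀ U : ℝ, 1 ≤ U → S.Bs N U (c₀ U)) → (1 + δ / 20) / 4 * a ≤
        ∑ f ∈ univ.filter (fun f => S.ε f = 1 ∧ S.L f ≠ 0), S.ω f * S.a f a ^ 2)
    (Real.exp ((b * δ) ^ (-1 / 2 : ℝ))) fun a ha ha' =>
      (hH δ a hδ h1 ha ha').imp fun N₀ h N hN S => h N S hN
  refine ⟨max N₁ (max N₂ N₃), fun N hN hp hz => ?_⟩
  obtain ⟨S, hS, hB, e1, e2⟩ := hA N hp
  have k1 := hN₁ N S (univ.filter fun f => S.ε f = 1 ∧ S.L f ≠ 0) ((1 + δ / 20) / 4)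
    (le_of_max_le_left hN) hp hS (by positivity) (by linarith)
    fun a ha ha' => hN₃ N (le_of_max_le_right (le_of_max_le_right hN)) a ha ha' S hp hz hS hB
  have k2 := hN₂ N S (le_of_max_le_left (le_of_max_le_right hN)) hp hS
  have hN0 : (0 : ℝ) < N := Nat.cast_pos.2 hp.pos
  rw [e1, e2]
  refine ratio (K := KN N) (t := cK * N) hδ h3 (mul_pos hcK hN0) (hK N hp.pos).2.1 ?_ ?_
    (Nat.cast_le.2 (card_le_card fun f hf => mem_filter.2 ⟨mem_univ f, (mem_filter.1 hf).2.1⟩))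
  · have e : C' * (b * δ) * N = δ * (cK * N) / 200 := by rw [← mul_assoc, hbe]; ring
    rwa [e] at k1
  · linarith

theorem two_le {κ : ℝ} (hκ : 0 < κ) : ∃ N₁ : ℕ, ∀ N : ℕ, N₁ ≤ N → 2 ≤ (N : ℝ) ^ κ :=
  eventually_atTop.1
    (((tendsto_rpow_atTop hκ).comp tendsto_natCast_atTop_atTop).eventually_ge_atTop 2)

/-- a zero in the region is exceptional -/
theorem exc_of (hP : PhZ) (hZ : ZfS) : ∃ c₀ : ℝ, 0 < c₀ ∧ c₀ ≤ 1 / 10 ∧ ∀ (c κ : ℝ) (N : ℕ),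
    c ≤ c₀ → 0 < N → 2 ≤ (N : ℝ) ^ κ → ¬ZFree c ((N : ℝ) ^ κ) → Exc N κ (c / κ) := by
  obtain ⟨C, -, hP⟩ := hP
  obtain ⟨c₀, h0, h1, hZ⟩ := hZ
  refine ⟨c₀, h0, h1, fun c κ N hc hN hz hf => ?_⟩
  have hl : 0 < Real.log ((N : ℝ) ^ κ) := Real.log_pos (by linarith)
  unfold ZFree at hf
  push Not at hf
  obtain ⟨⟨i, χ⟩, hx, ρ, hρ, him, hre⟩ := hf
  simp only [pcs, Finset.mem_sigma, Finset.mem_range, Finset.mem_filter, Finset.mem_univ,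
    true_and] at hx
  have hq : ((i + 1 : ℕ) : ℝ) ≤ (N : ℝ) ^ κ :=
    le_trans (by exact_mod_cast hx.1) (Nat.floor_le (by linarith))
  obtain ⟨h2, h3, h4⟩ := hZ _ (i + 1) χ ρ hz hq hρ him (le_trans (by gcongr) hre)
  obtain ⟨-, h5, -, -, -, h6, -⟩ := hP (i + 1) χ
  have h7 : ρ.re < 1 := not_le.1 fun h => h5 ρ h hρ
  have h8 : (ρ.re : ℂ) = ρ := Complex.ext (by simp) (by simp [h4])
  refine ⟨i + 1, inferInstance, χ, ρ.re, hx.2, h3, h2, hq, ?_, h7, ?_⟩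
  · rwa [Real.log_rpow (Nat.cast_pos.2 hN), ← div_div] at hre
  · have h9 := h6 ρ (by rintro rfl; simp at h7)
    rw [if_neg h3, one_mul] at h9
    rw [h8, ← h9]
    exact hρ

theorem bey2Of (hP : PhZ) (hZ : ZfS) (hG : PageS) (hF : Fin2S) : Bey2S := by
  obtain ⟨c₀, h0, h1, hE⟩ := exc_of hP hZ
  obtain ⟨c₁, g0, -, hG⟩ := hG
  obtain ⟨c, c0, c1, c2⟩ : ∃ c : ℝ, 0 < c ∧ c ≤ c₀ ∧ 2 * c ≤ c₁ :=
    ⟨min c₀ (c₁ / 2), lt_min h0 (half_pos g0), min_le_left _ _, by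
      linarith [min_le_right c₀ (c₁ / 2)]⟩
  obtain ⟨δ₁, d0, hF⟩ := hF c c0 (c1.trans h1)
  have one : ∀ κ : ℝ, 0 < κ → κ ≤ 1000 * δ₁ → ∃ N₀ : ℕ, ∀ N : ℕ, N₀ ≤ N → N.Prime →
      1 / 2 + κ / 200000 ≤ ((Hn N).ncard : ℝ) / (Hp N).ncard ∨ Exc N κ (c / κ) := by
    intro κ k0 k1
    obtain ⟨N₀, a⟩ := hF (κ / 1000) (by positivity) (by linarith)
    obtain ⟨N₁, b⟩ := two_le k0
    refine ⟨max N₀ N₁, fun N hN hp => ?_⟩
    have e : zz (κ / 1000) N = (N : ℝ) ^ κ := by rw [zz, mul_div_cancel₀ _ (by norm_num)]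
    by_cases hf : ZFree c ((N : ℝ) ^ κ)
    · have := a N (le_of_max_le_left hN) hp (e ▸ hf)
      exact Or.inl (by linarith)
    · exact Or.inr (hE c κ N c1 hp.pos (b N (le_of_max_le_right hN)) hf)
  have all : ∀ i : ℕ, ∃ N₀ : ℕ, ∀ N : ℕ, N₀ ≤ N → N.Prime →
      1 / 2 + 1000 * δ₁ / 2 ^ i / 200000 ≤ ((Hn N).ncard : ℝ) / (Hp N).ncard ∨
        Exc N (1000 * δ₁ / 2 ^ i) (c / (1000 * δ₁)) := by
    intro i
    induction i with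
    | zero => simpa using one (1000 * δ₁) (by positivity) le_rfl
    | succ i ih =>
      obtain ⟨N₀, ih⟩ := ih
      have k0 : 0 < 1000 * δ₁ / 2 ^ i := by positivity
      have k1 : 1000 * δ₁ / 2 ^ i ≤ 1000 * δ₁ :=
        div_le_self (by positivity) (one_le_pow₀ one_le_two)
      rw [pow_succ, ← div_div]
      generalize 1000 * δ₁ / 2 ^ i = κ at *
      obtain ⟨N₁, a⟩ := one (κ / 2) (half_pos k0) (by linarith)
      obtain ⟨N₂, b⟩ := two_le k0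
      refine ⟨max N₀ (max N₁ N₂), fun N hN hp => ?_⟩
      rcases ih N (le_of_max_le_left hN) hp with h | ⟨q, _, χ, β, -, x₁, x₂, x₃, x₄, -, x₆⟩
      · exact Or.inl (by linarith)
      refine (a N (le_of_max_le_left (le_of_max_le_right hN)) hp).imp_right ?_
      rintro ⟨q', _, χ', β', w₀, w₁, w₂, w₃, w₄, w₅, w₆⟩
      have n1 : (1 : ℝ) < N := by exact_mod_cast hp.one_lt
      have l0 := Real.log_pos n1
      have e : c₁ / Real.log ((N : ℝ) ^ κ) = c₁ / κ / Real.log N := by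
        rw [Real.log_rpow (by linarith), div_div]
      have u1 : c / (κ / 2) ≤ c₁ / κ := by
        rw [div_div_eq_mul_div]
        gcongr
        linarith
      have u2 : c / (1000 * δ₁) ≤ c / (κ / 2) := by
        gcongr
        linarith
      have := hG _ q q' χ χ' β β' (b N (le_of_max_le_right (le_of_max_le_right hN))) x₃
        (w₃.trans (Real.rpow_le_rpow_of_exponent_le n1.le (by linarith))) x₂ x₁ w₂ w₁ x₆ w₆
        (e ▸ (sub_le_sub_left (div_le_div_of_nonneg_right (u2.trans u1) l0.le) 1).trans x₄)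
        (e ▸ (sub_le_sub_left (div_le_div_of_nonneg_right u1 l0.le) 1).trans w₄)
      exact ⟨q', inferInstance, χ', β', w₀, w₁, w₂, w₃, this ▸ x₄, w₅, w₆⟩
  refine ⟨c / (1000 * δ₁), by positivity, fun κ k0 => ?_⟩
  obtain ⟨i, hi⟩ := pow_unbounded_of_one_lt (1000 * δ₁ / κ) (one_lt_two (α := ℝ))
  obtain ⟨N₀, a⟩ := all i
  refine ⟨1000 * δ₁ / 2 ^ i / 200000, by positivity, N₀, fun N hN hp => (a N hN hp).imp_right ?_⟩
  rintro ⟨q, _, χ, β, x₀, x₁, x₂, x₃, x₄⟩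
  refine ⟨q, inferInstance, χ, β, x₀, x₁, x₂, x₃.trans
    (Real.rpow_le_rpow_of_exponent_le (by exact_mod_cast hp.pos) ?_), x₄⟩
  rw [div_lt_iff₀' k0] at hi
  rw [div_le_iff₀ (by positivity)]
  exact hi.le

end Pool.Agent.MP_20b2fd_nt.H20
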