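import Pool.Agent.MP_20b2fd_nt.H38.All
import Pool.Agent.MP_20b2fd_nt.H20.T5a

/-! The dichotomy with an absolute constant. -/

namespace Pool.Agent.MP_20b2fd_nt.H20

open H38 H38.All

theorem fin2 : Fin2S := fin2Of aut (hmOf ph ker dl fm mo1 mo2 ods) nu nl

theorem bey2 : Bey2S := bey2Of phZ (zfOf phZ zl) (pageOf phZ zl) fin2

end Pool.Agent.MP_20b2fd_nt.H20
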