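import Pool.Agent.MP_20b2fd_nt.H38.Xn
import Pool.Agent.MP_20b2fd_nt.H38.Mq0
import Pool.Agent.MP_20b2fd_nt.H38.Mo1
import Pool.Agent.MP_20b2fd_nt.H38.Mo2
import Pool.Agent.MP_20b2fd_nt.H38.Hm

/-! One quarter of the weighted mass, from a short mollifier. -/

set_option autoImplicit false

namespace Pool.Agent.MP_20b2fd_nt.H20

open Finset Filter Topology H38
open scoped Real

open Classical in
/-- the weighted proportion up to any positive loss -/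
def IsS : Prop :=
  ∀ (C ε : ℝ) (c₀ : ℝ → ℝ) (a : ℕ), 1 ≤ C → 0 < ε → 1 ≤ a → ∃ N₀ : ℕ, ∀ (N : ℕ) (S : Sp),
    N₀ ≤ N → N.Prime → S.Ok N C → (∀ U : ℝ, 1 ≤ U → S.Bs N U (c₀ U)) →
    (1 - ε) / 4 * a ≤ ∑ f ∈ univ.filter (fun f => S.ε f = 1 ∧ S.L f ≠ 0), S.ω f * S.a f a ^ 2

namespace W1A

open Classical in
/-- the short weight -/
noncomputable def ws (r : ℕ) (y : ℝ) (k : ℕ) : ℝ := if k ∈ Gq r y then (k : ℝ) / k.totient else 0

variable {r k : ℕ} {y : ℝ}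

theorem mem_gq : k ∈ Gq r y ↔ (1 ≤ k ∧ k ≤ ⌊y⌋₊) ∧ Squarefree k ∧ k.Coprime r := by
  unfold Gq
  rw [mem_filter, mem_Icc]

theorem ws_ne (h : ws r y k ≠ 0) : k ∈ Gq r y := by_contra fun e => h (if_neg e)

theorem le_tau (hk : 1 ≤ k) : (k : ℝ) / k.totient ≤ tau k := by
  have hφ : (0 : ℝ) < k.totient := by exact_mod_cast Nat.totient_pos.2 hk
  rw [div_le_iff₀ hφ, tau]
  have := sum_le_card_nsmul k.divisors Nat.totient k.totient fun d hd =>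
    Nat.le_of_dvd (Nat.totient_pos.2 hk) (Nat.totient_dvd_of_dvd (Nat.dvd_of_mem_divisors hd))
  rw [Nat.sum_totient, smul_eq_mul] at this
  exact_mod_cast this

theorem ws_ok (r : ℕ) (y : ℝ) (k : ℕ) :
    0 ≤ ws r y k ∧ (ws r y k ≠ 0 → k ≤ ⌊y⌋₊) ∧ ws r y k ≤ tau k ^ 2 := by
  refine ⟨?_, fun h => (mem_gq.1 (ws_ne h)).1.2, ?_⟩
  · unfold ws
    split_ifs
    · positivity
    · rfl
  · unfold ws
    split_ifs with h
    · have h1 := (mem_gq.1 h).1.1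
      have h2 : 1 ≤ tau k := by
        unfold tau
        exact_mod_cast card_pos.2 ⟨1, Nat.one_mem_divisors.2 (by omega)⟩
      nlinarith [le_tau h1]
    · positivity

theorem xw_cop {K m : ℕ} (h : xw K (ws r y) m ≠ 0) : m.Coprime r := by
  obtain ⟨j, -, hj⟩ := exists_ne_zero_of_sum_ne_zero h
  have : ws r y (m * j) ≠ 0 := fun e => hj (by simp [e])
  exact Nat.Coprime.coprime_mul_right (mem_gq.1 (ws_ne this)).2.2

theorem sum_ws (F : ℕ → ℝ → ℝ) (h0 : ∀ k, F k 0 = 0) :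
    ∑ k ∈ Icc 1 ⌊y⌋₊, F k (ws r y k) = ∑ k ∈ Gq r y, F k (k / k.totient) := by
  classical
  rw [← sum_subset (s₁ := Gq r y) (filter_subset _ _) fun k _ hk => by rw [ws, if_neg hk, h0]]
  exact sum_congr rfl fun k hk => by rw [ws, if_pos hk]

theorem s1 : ∑ k ∈ Icc 1 ⌊y⌋₊, ws r y k / k = ∑ k ∈ Gq r y, (1 : ℝ) / k.totient := by
  rw [sum_ws (fun k w => w / k) fun _ => zero_div _]
  refine sum_congr rfl fun k hk => ?_
  have : (k : ℝ) ≠ 0 := by exact_mod_cast (by have := (mem_gq.1 hk).1.1; omega : k ≠ 0)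
  field_simp

theorem s2 (u : ℕ → ℝ) : ∑ k ∈ Icc 1 ⌊y⌋₊, k.totient * ws r y k ^ 2 / (k : ℝ) ^ 2 * u k =
    ∑ k ∈ Gq r y, (1 : ℝ) / k.totient * u k := by
  rw [sum_ws (fun k w => k.totient * w ^ 2 / (k : ℝ) ^ 2 * u k) fun _ => by simp]
  refine sum_congr rfl fun k hk => ?_
  have h1 := (mem_gq.1 hk).1.1
  have : (k : ℝ) ≠ 0 := by exact_mod_cast (by omega : k ≠ 0)
  have hφ : (k.totient : ℝ) ≠ 0 := by exact_mod_cast (Nat.totient_pos.2 h1).ne'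
  field_simp

theorem s3 {D : ℝ} (hy : 1 ≤ y) (hD : ∀ x : ℝ, 1 ≤ x →
      ∑ p ∈ prs 1 x, Real.log p / ((p : ℝ) - 1) ≤ Real.log x + D) :
    ∑ k ∈ Icc 1 ⌊y⌋₊, k.totient * ws r y k / (k : ℝ) ^ 2 *
        ∑ p ∈ pz (⌊y⌋₊ : ℕ), Real.log p / p * ws r y (k * p) ≤
      ∑ k ∈ Gq r y, Real.log (y / k) / k.totient + D * ∑ k ∈ Gq r y, (1 : ℝ) / k.totient := by
  classical
  rw [sum_ws (fun k w => k.totient * w / (k : ℝ) ^ 2 *
    ∑ p ∈ pz (⌊y⌋₊ : ℕ), Real.log p / p * ws r y (k * p)) fun _ => by simp, mul_sum,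
    ← sum_add_distrib]
  refine sum_le_sum fun k hk => ?_
  obtain ⟨⟨h1, h2⟩, -⟩ := mem_gq.1 hk
  have k0 : (0 : ℝ) < k := by exact_mod_cast h1
  have hφ : (0 : ℝ) < k.totient := by exact_mod_cast Nat.totient_pos.2 h1
  have ky : (k : ℝ) ≤ y := (Nat.le_floor_iff (by linarith)).1 h2
  have e := hD (y / k) ((one_le_div k0).2 ky)
  have key : ∑ p ∈ pz (⌊y⌋₊ : ℕ), Real.log p / p * ws r y (k * p) ≤
      k / k.totient * ∑ p ∈ prs 1 (y / k), Real.log p / ((p : ℝ) - 1) := by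
    rw [mul_sum, ← sum_filter_ne_zero]
    have pos : ∀ p ∈ prs 1 (y / k), 0 ≤ (k : ℝ) / k.totient * (Real.log p / ((p : ℝ) - 1)) := by
      intro p hp
      have : (1 : ℝ) < p := (mem_filter.1 hp).2.2
      have := Real.log_nonneg this.le
      have : (0 : ℝ) < p - 1 := by linarith
      positivity
    refine le_trans (sum_le_sum fun p hp => le_of_eq ?_)
      (sum_le_sum_of_subset_of_nonneg (fun p hp => ?_) fun p hp _ => pos p hp)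
    · obtain ⟨a1, a2⟩ := mem_filter.1 hp
      have pp : p.Prime := (mem_filter.1 a1).2.1
      have g := ws_ne (right_ne_zero_of_mul a2)
      have c : k.Coprime p := Nat.coprime_of_squarefree_mul (mem_gq.1 g).2.1
      have p1 : (1 : ℝ) < p := by exact_mod_cast pp.one_lt
      have : (p : ℝ) - 1 ≠ 0 := by linarith
      rw [ws, if_pos g, Nat.totient_mul c, Nat.totient_prime pp]
      push_cast [Nat.cast_sub pp.one_le]
      field_simp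
    · obtain ⟨a1, a2⟩ := mem_filter.1 hp
      obtain ⟨b1, b2⟩ := mem_filter.1 a1
      have g := (mem_gq.1 (ws_ne (right_ne_zero_of_mul a2))).1.2
      refine mem_filter.2 ⟨mem_Icc.2 ⟨(mem_Icc.1 b1).1, Nat.le_floor ?_⟩, b2⟩
      rw [le_div_iff₀' k0]
      exact_mod_cast (Nat.le_floor_iff (by linarith)).1 g
  calc _ ≤ k.totient * ((k : ℝ) / k.totient) / (k : ℝ) ^ 2 *
        (k / k.totient * (Real.log (y / k) + D)) := by
        gcongr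
        exact key.trans (by gcongr)
    _ = _ := by field_simp

theorem od_zero {K : ℝ → ℝ} {B : ℝ} {N m : ℕ} (hK : ∀ t, B ≤ |t| → K t = 0) (hm : 1 ≤ m)
    (h : B * m ≤ N) : Od K N m = 0 := by
  unfold Od
  have : ∀ h : ℤ, tau h.natAbs * tau (m + h * N : ℤ).natAbs * K (h * N / m) = 0 := fun j => by
    by_cases e : j = 0
    · simp [e, tau]
    have m0 : (0 : ℝ) < m := by exact_mod_cast hm
    have j1 : (1 : ℝ) ≤ |(j : ℝ)| := by exact_mod_cast Int.one_le_abs e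
    rw [hK, mul_zero]
    rw [abs_div, abs_mul, Nat.abs_cast, Nat.abs_cast, le_div_iff₀ m0]
    exact h.trans (le_mul_of_one_le_left (Nat.cast_nonneg _) j1)
  simp only [this, tsum_zero]

theorem bl_zero {ι : Type} {J : Finset ι} {n : ι → ℕ} (x : ι → ℝ) {l : ℕ → ℝ} {M : ℝ}
    (hn : ∀ i ∈ J, 1 ≤ n i ∧ (n i : ℝ) ≤ M) (h : ∀ m : ℕ, 1 ≤ m → (m : ℝ) ≤ M ^ 2 → l m = 0) :
    Bl J n x l = 0 := by
  refine sum_eq_zero fun i hi => sum_eq_zero fun j hj => mul_eq_zero_of_right _ ?_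
  refine sum_eq_zero fun d hd => mul_eq_zero_of_right _ ?_
  have h1 := Nat.dvd_of_mem_divisors hd
  have h2 : d ^ 2 ∣ n i * n j := by
    rw [sq]
    exact mul_dvd_mul (h1.trans (Nat.gcd_dvd_left _ _)) (h1.trans (Nat.gcd_dvd_right _ _))
  refine h _ (Nat.div_pos (Nat.le_of_dvd (Nat.mul_pos (hn i hi).1 (hn j hj).1) h2)
    (pow_pos (Nat.pos_of_mem_divisors hd) 2)) ((Nat.cast_le.2 (Nat.div_le_self _ _)).trans ?_)
  rw [Nat.cast_mul, sq]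
  exact mul_le_mul (hn i hi).2 (hn j hj).2 (Nat.cast_nonneg _)
    ((Nat.cast_nonneg _).trans (hn i hi).2)

theorem size (c : ℝ) (hc : 0 ≤ c) : ∀ᶠ N : ℕ in atTop, ∀ (r : ℕ) (y : ℝ), 0 ≤ y →
    y ≤ (N : ℝ) ^ (1 / 2 : ℝ) → c * (Real.log N * (N : ℝ) ^ (-5 / 8 : ℝ)) *
      ∑ m ∈ Icc 1 ⌊y⌋₊, |xw ⌊y⌋₊ (ws r y) m| * m ≤ 1 := by
  obtain ⟨C, C1, hC⟩ := MP_74e98a_nt.H25.divisor_bound (1 / 64) (by norm_num)
  filter_upwards [eventually_ge_atTop 1, XnA.ev (c * 64 * C ^ 3 * 65) (s := 3 / 64) (by norm_num)]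
    with N N1 h r y y0 y1
  have n1 : (1 : ℝ) ≤ N := by exact_mod_cast N1
  have N0 : (0 : ℝ) < N := by linarith
  have K1 : (⌊y⌋₊ : ℝ) ≤ (N : ℝ) ^ (1 / 2 : ℝ) := (Nat.floor_le y0).trans y1
  have K2 : (⌊y⌋₊ : ℝ) ≤ N := K1.trans (Real.rpow_le_self_of_one_le n1 (by norm_num))
  obtain ⟨u, hu⟩ : ∃ u, u = (N : ℝ) ^ (1 / 64 : ℝ) := ⟨_, rfl⟩
  have u1 : 1 ≤ u := hu ▸ Real.one_le_rpow n1 (by norm_num)
  have pw : ∀ j : ℕ, u ^ j = (N : ℝ) ^ (j / 64 : ℝ) := fun j => by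
    rw [hu, ← Real.rpow_natCast, ← Real.rpow_mul N0.le]
    congr 1
    ring
  have l : Real.log N ≤ 64 * u := by
    have := Real.log_le_rpow_div N0.le (show (0 : ℝ) < 1 / 64 by norm_num)
    rw [← hu] at this
    linarith
  have hH : ∑ j ∈ Icc 1 ⌊y⌋₊, (1 : ℝ) / j ≤ 65 * u := by
    have a1 : ∑ j ∈ Icc 1 ⌊y⌋₊, (1 : ℝ) / j ≤ 1 + Real.log N :=
      (sum_le_sum_of_subset_of_nonneg (Icc_subset_Icc_right (Nat.cast_le.1 K2))
        fun _ _ _ => by positivity).trans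
        (by simpa [harmonic_eq_sum_Icc] using harmonic_le_one_add_log N)
    linarith
  have hx : ∑ m ∈ Icc 1 ⌊y⌋₊, |xw ⌊y⌋₊ (ws r y) m| * m ≤ ⌊y⌋₊ * ((C * u) ^ 3 * (65 * u)) := by
    refine (sum_le_card_nsmul _ _ _ fun m hm => XnA.one (T := C * u)
      (fun k hk => (hC k).trans ?_) (ws_ok r y) (mem_Icc.1 hm).1 hH).trans_eq (by simp)
    rw [hu]
    gcongr
    exact hk.trans (Nat.cast_le.1 K2)
  have e1 : (N : ℝ) ^ (1 / 2 : ℝ) = u ^ 32 := by rw [pw]; norm_num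
  have e2 : (N : ℝ) ^ (-5 / 8 : ℝ) = (u ^ 40)⁻¹ := by
    rw [pw, ← Real.rpow_neg N0.le]; norm_num
  have e3 : (N : ℝ) ^ (3 / 64 : ℝ) = u ^ 3 := by rw [pw]; norm_num
  rw [e1] at K1
  rw [e3] at h
  rw [e2]
  have L0 := Real.log_nonneg n1
  calc _ ≤ c * (64 * u * (u ^ 40)⁻¹) * (u ^ 32 * ((C * u) ^ 3 * (65 * u))) := by
        gcongr
        exact hx.trans (by gcongr)
    _ = c * 64 * C ^ 3 * 65 / u ^ 3 := by field_simp
    _ ≤ 1 := (div_le_one (by positivity)).2 h.le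

theorem fin {δ a V l c₁ F W Q : ℝ} (d0 : 0 < δ) (d1 : δ ≤ 1 / 10) (a0 : 0 < a) (V0 : 0 < V)
    (hl : 0 < l) (hc : π - 2 / (100 / δ) ≤ c₁) (W0 : 0 ≤ W) (hF : a * V * l * (1 - 3 * δ) ≤ F)
    (cs : F ^ 2 ≤ W * Q) (hQ : Q ≤ π / c₁ ^ 2 * (c₁ * (a * V ^ 2 * l ^ 2 * (4 + 23 / 10 * δ)))) :
    (1 - 7 * δ) / 4 * a ≤ W := by
  have p3 := Real.pi_gt_three
  have p4 := Real.pi_le_four
  rw [show 2 / (100 / δ) = δ / 50 by field_simp; norm_num] at hc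
  have c2 : 2 ≤ c₁ := by linarith
  have k2 : π / c₁ ^ 2 * c₁ ≤ 1 + δ / 100 := by
    rw [show π / c₁ ^ 2 * c₁ = π / c₁ by field_simp, div_le_iff₀ (by positivity)]
    nlinarith
  obtain ⟨Y, hY⟩ : ∃ Y, Y = a * V ^ 2 * l ^ 2 := ⟨_, rfl⟩
  have Y0 : 0 < Y := by rw [hY]; positivity
  rw [← hY, ← mul_assoc] at hQ
  have k4 : Q ≤ Y * (4 + 24 / 10 * δ) :=
    calc Q ≤ (1 + δ / 100) * (Y * (4 + 23 / 10 * δ)) := hQ.trans (by gcongr)
      _ = Y * (4 + 234 / 100 * δ + 23 / 1000 * δ * δ) := by ring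
      _ ≤ _ := mul_le_mul_of_nonneg_left (by nlinarith) Y0.le
  refine le_of_mul_le_mul_right ?_ (show 0 < Y * (4 + 24 / 10 * δ) by positivity)
  have : 0 ≤ 1 - 3 * δ := by linarith
  calc _ = a * Y * (1 - 64 / 10 * δ - 42 / 10 * δ * δ) := by ring
    _ ≤ a * Y * (1 - 3 * δ) ^ 2 := mul_le_mul_of_nonneg_left (by nlinarith) (by positivity)
    _ = (a * V * l * (1 - 3 * δ)) ^ 2 := by rw [hY]; ring
    _ ≤ F ^ 2 := by gcongr
    _ ≤ W * Q := cs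
    _ ≤ _ := by gcongr

theorem evl (c : ℝ) : ∀ᶠ N : ℕ in atTop, c ≤ Real.log N / 2 :=
  ((Real.tendsto_log_atTop.comp tendsto_natCast_atTop_atTop).atTop_div_const
    two_pos).eventually_ge_atTop _

end W1A

open W1A in
theorem isOf (Ph : PhS) (Ker : KerS) (Dl : DlS) (M1 : M1S) (Cf : CfS) (M2 : M2S) (Me : MerS)
    (Fm : FmS) : IsS := by
  classical
  intro C ε c₀ a hC hε ha
  obtain ⟨δ, d0, d1, d2⟩ : ∃ δ : ℝ, 0 < δ ∧ δ ≤ 1 / 10 ∧ 7 * δ ≤ ε :=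
    ⟨min (1 / 10) (ε / 7), by positivity, min_le_left _ _,
      by linarith [min_le_right (1 / 10) (ε / 7)]⟩
  have hU : 1 ≤ 100 / δ := (one_le_div d0).2 (by linarith)
  obtain ⟨U, hUe⟩ : ∃ U, U = 100 / δ := ⟨_, rfl⟩
  rw [← hUe] at hU
  obtain ⟨CK, AK, -, Ker⟩ := Ker
  obtain ⟨_, -, -, hK, -⟩ := Ker U hU
  obtain ⟨e1, e2, e3, e4, e5, e6⟩ := Dl.2 a ha
  obtain ⟨-, p1, -, p2, p3, -⟩ := Ph U hU
  obtain ⟨C₂, c2, M2⟩ := M2 (30 * a) (by omega)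
  obtain ⟨D, D1, Me, -⟩ := Me
  obtain ⟨C', c', Fm⟩ := Fm C hC
  have a0 : (0 : ℝ) < a := by exact_mod_cast ha
  have V0 : 0 < Vr a := lt_of_lt_of_le (by positivity) e4
  have hγ : 1 ≤ c1 U := by
    have : 2 / U ≤ 2 := div_le_self zero_le_two hU
    linarith [Real.pi_gt_three]
  have A0 : 0 ≤ ∑ j ∈ J0 a, |Dj a j| * j := sum_nonneg fun _ _ => by positivity
  obtain ⟨T, hT⟩ : ∃ T : ℕ, 1 / (δ / 4000) ≤ T := ⟨_, Nat.le_ceil _⟩
  obtain ⟨N₀, h0⟩ := eventually_atTop.1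
    ((size (C' * 2 * a ^ 3 * ∑ j ∈ J0 a, |Dj a j| * j) (by positivity)).and <|
    (XnA.ev (30 * a ^ 3) (s := 1 / 2) (by norm_num)).and <|
    (XnA.ev (CK * U ^ AK * (30 * a ^ 2) ^ 2) (s := 2 * δ) (by positivity)).and <|
    (evl 1).and <| (evl (C₂ / (Vr a * (38 / 100 * δ)))).and <|
    (evl ((T + 1) / (δ / 4000))).and <| (evl ((C₂ + 2 * D) / (Vr a * (38 / 100 * δ)))).and <|
    (evl (2 * (|Bl (J0 a) id (Dj a) fun m => tau m * Real.log m| + |c₀ U| * a) /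
      (a * Vr a ^ 2 * (δ / 100)))).and <| evl ((a * C₂ + 1) / (a * Vr a * δ)))
  refine ⟨N₀, fun N S hN hp hS bs => ?_⟩
  obtain ⟨f1, f2, f3, f4, f5, f6, f7, f8, f9⟩ := h0 N hN
  have n1 : (1 : ℝ) ≤ N := by exact_mod_cast hp.pos
  have N0 : (0 : ℝ) < N := by linarith
  obtain ⟨y, hy⟩ : ∃ y, y = (N : ℝ) ^ (1 / 2 - δ) := ⟨_, rfl⟩
  obtain ⟨l, hl⟩ : ∃ l, l = Real.log N / 2 := ⟨_, rfl⟩
  rw [← hl] at f4 f5 f6 f7 f8 f9
  rw [div_le_iff₀ (by positivity)] at f5 f6 f7 f8 f9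
  have y1 : 1 ≤ y := hy ▸ Real.one_le_rpow n1 (by linarith)
  have y2 : y ≤ (N : ℝ) ^ (1 / 2 : ℝ) :=
    hy ▸ Real.rpow_le_rpow_of_exponent_le n1 (by linarith)
  have ly : Real.log y = l * (1 - 2 * δ) := by rw [hy, Real.log_rpow N0, hl]; ring
  have ly0 := Real.log_nonneg y1
  have ly1 : Real.log y ≤ l := by
    rw [ly]
    exact mul_le_of_le_one_right (zero_le_one.trans f4) (by linarith only [d0])
  obtain ⟨g1, g2⟩ := M2 y y1
  obtain ⟨G, hG⟩ : ∃ G, G = ∑ k ∈ Gq (30 * a) y, (1 : ℝ) / k.totient := ⟨_, rfl⟩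
  change |_ - Vr a * _| ≤ _ at g1
  change _ ≤ Vr a * _ / 2 + _ at g2
  rw [← hG, abs_le] at g1
  have G0 : 0 ≤ G := hG ▸ sum_nonneg fun _ _ => by positivity
  have G1 : G ≤ Vr a * l * (1 + 38 / 100 * δ) := by
    linarith only [mul_le_mul_of_nonneg_left ly1 V0.le, g1.2, f5]
  have G2 : G ≤ 2 * (Vr a * l) := G1.trans (by
    rw [mul_comm 2]
    gcongr
    linarith)
  obtain ⟨m1, m2, m3⟩ := M1 ⌊y⌋₊ (ws (30 * a) y) fun k h =>
    ⟨(mem_gq.1 (ws_ne h)).2.1, (mem_gq.1 (ws_ne h)).1.2⟩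
  obtain ⟨k1, k2, k3, k4⟩ := Cf (J0 a) (Icc 1 ⌊y⌋₊) (Dj a) (xw ⌊y⌋₊ (ws (30 * a) y))
    (fun i hi => (e6 i hi).1) (fun j hj => (mem_Icc.1 hj).1)
    fun i hi j _ h => (e6 i hi).2.2 j (xw_cop h)
  replace k4 := k4 a fun j _ h => (Nat.Coprime.coprime_mul_left_right (xw_cop h)).symm
  have t0 := s2 (r := 30 * a) (y := y) fun _ => 1
  simp only [mul_one] at t0
  rw [s1, ← hG] at m1
  rw [t0, ← hG] at m2
  rw [e3, m1] at k4
  rw [e1, zero_mul] at k1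
  have hn : ∀ i ∈ J0 a ×ˢ Icc 1 ⌊y⌋₊, 1 ≤ nn i ∧ (nn i : ℝ) ≤ 30 * a ^ 2 * y := fun i hi => by
    obtain ⟨i1, i2⟩ := mem_product.1 hi
    obtain ⟨j1, j2, -⟩ := e6 _ i1
    obtain ⟨j3, j4⟩ := mem_Icc.1 i2
    refine ⟨Nat.mul_pos j1 j3, ?_⟩
    have j5 : (i.1 : ℝ) ≤ 30 * a ^ 2 := by exact_mod_cast j2
    have j6 : (i.2 : ℝ) ≤ y := (Nat.le_floor_iff (by linarith)).1 j4
    rw [nn, Nat.cast_mul]
    gcongr
  have hn' : ∀ i ∈ J0 a ×ˢ Icc 1 ⌊y⌋₊, a * nn i < N := fun i hi => by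
    rw [← Nat.cast_lt (α := ℝ), Nat.cast_mul]
    calc _ ≤ (a : ℝ) * (30 * a ^ 2 * (N : ℝ) ^ (1 / 2 : ℝ)) := by
          gcongr
          exact (hn i hi).2.trans (by gcongr)
      _ = 30 * a ^ 3 * (N : ℝ) ^ (1 / 2 : ℝ) := by ring
      _ < (N : ℝ) ^ (1 / 2 : ℝ) * (N : ℝ) ^ (1 / 2 : ℝ) := by gcongr
      _ = N := by
        rw [← Real.rpow_add N0]
        norm_num
  have od : Bl (J0 a ×ˢ Icc 1 ⌊y⌋₊) nn (fun i => Dj a i.1 * xw ⌊y⌋₊ (ws (30 * a) y) i.2)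
      (Od (Kf U) N) = 0 := bl_zero _ hn fun m h1 h2 => by
    by_cases b : CK * U ^ AK ≤ 0
    · exact od_zero hK h1 ((mul_nonpos_of_nonpos_of_nonneg b (Nat.cast_nonneg _)).trans N0.le)
    refine od_zero hK h1 ?_
    have b := (not_le.1 b).le
    calc _ ≤ CK * U ^ AK * (30 * a ^ 2 * y) ^ 2 := by gcongr
      _ = CK * U ^ AK * (30 * a ^ 2) ^ 2 * y ^ 2 := by ring
      _ ≤ (N : ℝ) ^ (2 * δ) * y ^ 2 := by gcongr
      _ = N := by
        rw [hy, ← Real.rpow_natCast, ← Real.rpow_mul N0.le, ← Real.rpow_add N0]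
        norm_num [show 2 * δ + (1 / 2 - δ) * 2 = 1 by ring]
  have q := bs U hU _ _ nn (fun i => Dj a i.1 * xw ⌊y⌋₊ (ws (30 * a) y) i.2)
    (fun i hi => ⟨(hn i hi).1, lt_of_le_of_lt (Nat.le_mul_of_pos_left _ ha) (hn' i hi)⟩) k1
  rw [Mo2A.bl_lin _ _ _ (fun i hi => (hn i hi).1) hp.pos, od, k2, k3, e2, m2, m3, s2, mul_zero,
    add_zero, show Real.log N = 2 * l by rw [hl]; ring] at q
  have qA : ∑ k ∈ Gq (30 * a) y, (1 : ℝ) / k.totient *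
      ∑ p ∈ k.primeFactors, Real.log p / ((p : ℝ) - 1) ≤ Vr a * l ^ 2 * (δ / 1000) := by
    calc _ ≤ ∑ k ∈ Gq (30 * a) y, (1 : ℝ) / k.totient * (l * (δ / 2000)) := by
          refine sum_le_sum fun k hk => mul_le_mul_of_nonneg_left ?_ (by positivity)
          obtain ⟨⟨h1, h2⟩, -⟩ := mem_gq.1 hk
          have b1 := mul_le_mul_of_nonneg_left ((Real.log_le_log (by exact_mod_cast h1)
            ((Nat.le_floor_iff (zero_le_one.trans y1)).1 h2 : (k : ℝ) ≤ y)).trans ly1) d0.le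
          have b2 := Mq0A.psum k T (δ / 4000) h1 (by positivity) hT
          linarith only [b1, b2, f6]
      _ = G * (l * (δ / 2000)) := by rw [hG, sum_mul]
      _ ≤ 2 * (Vr a * l) * (l * (δ / 2000)) := by gcongr
      _ = _ := by ring
  have qB := (s3 (r := 30 * a) (D := D) y1 fun x hx => by
    have := (abs_le.1 (Me 1 x le_rfl hx).2).2
    rw [div_one] at this
    linarith).trans (add_le_add g2 (le_of_eq (by rw [← hG])))
  have qB' : Vr a * Real.log y ^ 2 / 2 + C₂ * Real.log y + D * G ≤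
      Vr a * l ^ 2 * (1 / 2 + 38 / 100 * δ) := by
    have b1 : Vr a * Real.log y ^ 2 / 2 ≤ Vr a * l ^ 2 / 2 := by gcongr
    have b2 : C₂ * Real.log y ≤ C₂ * l := by gcongr
    have b3 : D * G ≤ D * (2 * (1 * l)) := by
      refine mul_le_mul_of_nonneg_left (G2.trans ?_) (by linarith)
      gcongr
    linarith only [mul_le_mul_of_nonneg_right f7 (zero_le_one.trans f4), b1, b2, b3]
  have key := Mo2A.num (c := c₀ U) d0 (by linarith) p2 p3 hγ a0.le V0.le e5 (by linarith) G0 G1 qA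
    (qB.trans qB') (f8.trans_eq (mul_comm _ _))
  replace q := q.trans (mul_le_mul_of_nonneg_left key (by positivity))
  refine le_trans (mul_le_mul_of_nonneg_right (by linarith) a0.le) (W1A.fin d0 d1 a0 V0
    (by linarith) (hUe ▸ p1) (sum_nonneg fun f _ => mul_nonneg (hS.pos f).le (sq_nonneg _)) ?_
    (HmA.cs _ _ _ _ _ (fun f => (hS.pos f).le) fun f hf => by
      by_contra h0
      exact hf ⟨(hS.sgn f).resolve_right fun h => h0 ((Fm N S hp hS).1 f h), h0⟩) q)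
  rw [Mo1A.swap S _ _ _ _ fun f i hi => hS.hk f _ _ (hn i hi).1 ha
    (Nat.coprime_of_lt_prime (by omega) 
      (lt_of_le_of_lt (Nat.le_mul_of_pos_right _ (hn i hi).1) (hn' i hi)) hp).symm]
  obtain ⟨E, hE⟩ : ∃ E, E = C' * (2 * Real.log N) * (N : ℝ) ^ (-5 / 8 : ℝ) := ⟨_, rfl⟩
  have L1 : 1 ≤ Real.log N := by linarith
  have E0 : 0 ≤ E := by rw [hE]; positivity
  have r1 : ∀ i ∈ J0 a ×ˢ Icc 1 ⌊y⌋₊,
      Dj a i.1 * xw ⌊y⌋₊ (ws (30 * a) y) i.2 * sig (a.gcd (nn i)) -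
        E * a ^ 3 * (|Dj a i.1| * i.1 * (|xw ⌊y⌋₊ (ws (30 * a) y) i.2| * i.2)) ≤
      Dj a i.1 * xw ⌊y⌋₊ (ws (30 * a) y) i.2 *
        Bh (fun m => ∑ f, S.ω f * (S.L f * S.a f m)) (nn i) a := fun i hi => by
    have h2 := Mo1A.err (M := fun m => ∑ f, S.ω f * (S.L f * S.a f m)) E0 (hn i hi).1 ha (hn' i hi)
      fun m h3 h4 => ((Fm N S hp hS).2 m h3 h4).trans (by
        have h5 : Real.log m ≤ Real.log N :=
          Real.log_le_log (by exact_mod_cast h3) (by exact_mod_cast h4.le)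
        rw [hE, mul_right_comm _ _ (m : ℝ), mul_right_comm C' _ (m : ℝ)]
        gcongr
        linarith)
    have h3 := neg_abs_le (Dj a i.1 * xw ⌊y⌋₊ (ws (30 * a) y) i.2 *
      (Bh (fun m => ∑ f, S.ω f * (S.L f * S.a f m)) (nn i) a - sig (a.gcd (nn i))))
    rw [abs_mul, abs_mul] at h3
    have h4 := mul_le_mul_of_nonneg_left h2
      (mul_nonneg (abs_nonneg (Dj a i.1)) (abs_nonneg (xw ⌊y⌋₊ (ws (30 * a) y) i.2)))
    rw [show ((nn i : ℕ) : ℝ) = i.1 * i.2 by rw [nn, Nat.cast_mul]] at h4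
    linarith only [h3, h4]
  refine le_trans ?_ (sum_le_sum r1)
  rw [sum_sub_distrib, ← mul_sum, k4, sum_product]
  dsimp only
  rw [← sum_mul_sum]
  have r2 := f1 (30 * a) y (by linarith) y2
  have r3 : E * a ^ 3 * ((∑ j ∈ J0 a, |Dj a j| * j) *
      ∑ m ∈ Icc 1 ⌊y⌋₊, |xw ⌊y⌋₊ (ws (30 * a) y) m| * m) ≤ 1 := by
    refine le_of_eq_of_le ?_ r2
    rw [hE]
    ring
  have r4 := mul_le_mul_of_nonneg_left g1.1 a0.le
  rw [ly] at r4
  linarith only [r3, r4, f9]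

end Pool.Agent.MP_20b2fd_nt.H20
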