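import Pool.Agent.MP_20b2fd_nt.H38.Nl

/-! The passage to natural weights with an extra gain for the untwisted sum only. -/

set_option autoImplicit false

namespace Pool.Agent.MP_20b2fd_nt.H20

open Finset Filter Topology H38
open scoped Real

def Nl3S : Prop :=
  ∀ C : ℝ, 1 ≤ C → ∃ C' c' : ℝ, 1 ≤ C' ∧ 0 < c' ∧ ∀ η : ℝ, 0 < η → η ≤ 1 / 2 → ∃ N₀ : ℕ,
    ∀ (N : ℕ) (S : Sp) (W : Finset (Fin S.g)) (μ g : ℝ), N₀ ≤ N → N.Prime → S.Ok N C → 0 ≤ μ →
    μ ≤ 1 → 0 ≤ g → g ≤ 1 →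
    (∀ a : ℕ, 1 ≤ a → (a : ℝ) ≤ Real.exp (η ^ (-1 / 2 : ℝ)) →
      μ * a ≤ ∑ f ∈ W, S.ω f * S.a f a ^ 2) → μ + g ≤ ∑ f ∈ W, S.ω f →
    μ * KN N - C' * η * N + g * (c' * √η * N) ≤ W.card

namespace W2A

theorem cop (P N j : ℕ) : ((Ico N (N + j * P)).filter fun x => P.Coprime x).card = j * P.totient := by
  induction j with
  | zero => simp
  | succ j ih =>
    rw [← Ico_union_Ico_eq_Ico (b := N + j * P) (by omega) (by rw [add_one_mul]; omega),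
      filter_union, card_union_of_disjoint (disjoint_filter_filter (Ico_disjoint_Ico_consecutive _ _ _)),
      ih, add_one_mul, add_one_mul, ← add_assoc, Nat.filter_coprime_Ico_eq_totient]

theorem rough (hM : MerS) : ∃ c : ℝ, 0 < c ∧ ∀ t : ℝ, 1 ≤ t → 2 ≤ t ^ 2 → ∃ P : ℕ, 1 ≤ P ∧
    (∀ q : ℕ, q.Prime → (q : ℝ) ≤ t ^ 12 → q ∣ P) ∧ c / t * P ≤ P.totient := by
  obtain ⟨D, -, -, -, hD⟩ := hM
  refine ⟨Real.exp (-(2 * D)) / 576, by positivity, fun t t1 t2 => ?_⟩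
  have t0 : 0 < t := by linarith
  have z2 : 2 ≤ t ^ 12 := t2.trans (pow_le_pow_right₀ t1 (by norm_num))
  have pr : ∀ p ∈ pz (t ^ 12), p.Prime := fun p hp => (mem_filter.1 hp).2.1
  have P0 : 0 < ∏ p ∈ pz (t ^ 12), p := prod_pos fun p hp => (pr p hp).pos
  refine ⟨∏ p ∈ pz (t ^ 12), p, P0, fun q hq h => dvd_prod_of_mem _ (mem_filter.2
    ⟨mem_Icc.2 ⟨hq.pos, Nat.le_floor h⟩, hq, by exact_mod_cast hq.one_lt⟩), ?_⟩
  have e := congrArg (Rat.cast (K := ℝ)) (Nat.totient_eq_mul_prod_factors (∏ p ∈ pz (t ^ 12), p))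
  rw [Nat.primeFactors_prod pr] at e
  push_cast at e
  rw [e, mul_comm, Nat.cast_prod]
  refine mul_le_mul_of_nonneg_left ?_ (by positivity)
  have h1 : Real.exp (-(2 * ∑ p ∈ pz (t ^ 12), (1 : ℝ) / p)) ≤
      ∏ p ∈ pz (t ^ 12), (1 - (p : ℝ)⁻¹) := by
    rw [mul_sum, ← sum_neg_distrib, Real.exp_sum]
    refine prod_le_prod (fun _ _ => (Real.exp_pos _).le) fun p hp => ?_
    have p2 : (2 : ℝ) ≤ p := by exact_mod_cast (pr p hp).two_le
    have x0 : 0 < (p : ℝ)⁻¹ := by positivity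
    have x1 : (p : ℝ)⁻¹ ≤ 1 / 2 := by
      rw [one_div]
      exact inv_anti₀ two_pos p2
    rw [one_div, Real.exp_neg, inv_le_comm₀ (Real.exp_pos _) (by linarith)]
    refine le_trans ?_ (Real.add_one_le_exp _)
    rw [inv_le_iff_one_le_mul₀ (by linarith)]
    nlinarith
  refine le_trans ?_ h1
  have l0 : 0 < Real.log (t ^ 12) := Real.log_pos (by linarith)
  have h2 := (abs_le.1 (hD _ z2)).2
  have h3 : Real.log (t ^ 12) ^ 2 ≤ 576 * t := by
    have a1 := Real.log_le_sub_one_of_pos (Real.sqrt_pos.2 t0)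
    rw [Real.log_sqrt t0.le] at a1
    have a2 : Real.log (t ^ 12) ≤ 24 * √t := by
      rw [Real.log_pow]
      push_cast
      linarith
    refine (pow_le_pow_left₀ l0.le a2 2).trans_eq ?_
    rw [mul_pow, Real.sq_sqrt t0.le]
    norm_num
  calc _ = Real.exp (-(2 * D)) / (576 * t) := by rw [div_div]
    _ ≤ Real.exp (-(2 * D)) / Real.log (t ^ 12) ^ 2 := by gcongr
    _ = Real.exp (-(2 * (D + Real.log (Real.log (t ^ 12))))) := by
      rw [mul_add, neg_add, Real.exp_add, Real.exp_neg (2 * Real.log _),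
        show (2 : ℝ) * Real.log (Real.log (t ^ 12)) = (2 : ℕ) * Real.log (Real.log (t ^ 12)) by
          norm_num, Real.exp_nat_mul, Real.exp_log l0, div_eq_mul_inv]
    _ ≤ _ := Real.exp_le_exp.2 (by linarith)

open NlA in
theorem one_ge (hK : KapS) {c η : ℝ} (hc : ∀ v : ℝ, 1 ≤ v → v ≤ 2 → c ≤ kap v) (c0 : 0 ≤ c)
    {Q N X P A : ℕ} {T B : Finset ℕ} (hN : 1 ≤ N) (hX : 2 * N ≤ X) (hA : 1 ≤ A)
    (hP : ∀ q : ℕ, q.Prime → (q : ℝ) ≤ 1 / η ^ 6 → q ∣ P)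
    (b1 : ∀ F : ℕ → ℝ, ∑ n ∈ T, kap (n / N) * F n = ∑ a ∈ Icc 1 A,
      ∑ p ∈ Icc 1 Q, ∑ m ∈ Icc 1 X, kk η Q N X a p m * F (a * p * m))
    (b2 : Icc 1 X ⊆ T ∪ B) :
    c * ((N / P * P.totient : ℕ) - B.card) ≤ ∑ p ∈ Icc 1 Q, ∑ m ∈ Icc 1 X, kk η Q N X 1 p m := by
  classical
  have N0 : (0 : ℝ) < N := by exact_mod_cast hN
  have e := b1 fun n => if P.Coprime n then 1 else 0
  rw [← add_sum_erase _ _ (mem_Icc.2 ⟨le_rfl, hA⟩), sum_eq_zero (s := (Icc 1 A).erase 1)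
    fun a ha => sum_eq_zero fun p _ => sum_eq_zero fun m _ => by
      by_cases h : kk η Q N X a p m = 0
      · rw [h, zero_mul]
      have q := Nat.minFac_prime (ne_of_mem_erase ha)
      rw [if_neg, mul_zero]
      exact fun l => q.one_lt.ne' (Nat.eq_one_of_dvd_coprimes l
        (hP _ q ((kk_ne h).1.2.2.1 _ q (Nat.minFac_dvd a)))
        ((Nat.minFac_dvd a).trans ((dvd_mul_right a p).trans (dvd_mul_right _ m)))), add_zero] at e
  refine le_trans ?_ (e.le.trans (sum_le_sum fun p _ => sum_le_sum fun m _ =>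
    mul_le_of_le_one_right (kk_le hK).1 (by split_ifs <;> norm_num)))
  have l : N / P * P ≤ N := Nat.div_mul_le_self N P
  have s : ((Ico N (N + N / P * P)).filter fun x => P.Coprime x) \ B ⊆ T := fun n hn => by
    obtain ⟨h1, h2⟩ := mem_sdiff.1 hn
    have := mem_Ico.1 (mem_filter.1 h1).1
    exact (mem_union.1 (b2 (mem_Icc.2 ⟨by omega, by omega⟩))).resolve_right h2
  refine le_trans ?_ (sum_le_sum_of_subset_of_nonneg s fun n _ _ =>
    mul_nonneg (kap_nonneg hK (by positivity)).1 (by split_ifs <;> norm_num))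
  refine le_trans ?_ (card_nsmul_le_sum _ _ c fun n hn => ?_)
  · rw [nsmul_eq_mul, mul_comm c, ← cop P N]
    refine mul_le_mul_of_nonneg_right ?_ c0
    rw [sub_le_iff_le_add]
    exact_mod_cast card_le_card_sdiff_add_card
  · obtain ⟨h1, h2⟩ := mem_filter.1 (mem_sdiff.1 hn).1
    obtain ⟨h3, h4⟩ := mem_Ico.1 h1
    rw [if_pos h2, mul_one]
    refine hc _ ((one_le_div N0).2 (by exact_mod_cast h3)) ((div_le_iff₀ N0).2 ?_)
    exact_mod_cast (by omega : n ≤ 2 * N)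

end W2A

open NlA W2A in
theorem nl3Of (hK : KapS) (hM : MerS) (h1 : Nl1S) (h2 : Nl2S) : Nl3S := by
  classical
  intro C hC
  obtain ⟨D1, d1, k1⟩ := kn_le hK
  obtain ⟨D2, d2, k2⟩ := h1.2
  obtain ⟨⟨D, d, k3⟩, k4⟩ := h2 C hC
  obtain ⟨c₁, c1', k6⟩ := rough hM
  obtain ⟨c, _, c0, -, k7⟩ := id hK
  have c2 : c ≤ 2 := ((k7 1 one_pos).2.2.2 le_rfl one_le_two).trans (k7 1 one_pos).2.1
  choose! n0 k4 using k4
  refine ⟨8 * D2 + 2 * D1 + 144 * (1 + D), c * c₁ / 2, by linarith, by positivity,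
    fun η η0 l => ?_⟩
  obtain ⟨Q, X₀, k2⟩ := k2 η η0 (by linarith)
  obtain ⟨t, ht⟩ : ∃ t, t = η ^ (-1 / 2 : ℝ) := ⟨_, rfl⟩
  have t0 : 0 < t := ht ▸ Real.rpow_pos_of_pos η0 _
  have e : η = 1 / t ^ 2 := by
    rw [ht, ← Real.rpow_natCast, ← Real.rpow_mul η0.le]
    norm_num [Real.rpow_neg_one]
  have es : √η = 1 / t := by rw [e, ← one_div_pow, Real.sqrt_sq (by positivity)]
  have t2 : 2 ≤ t ^ 2 := by
    rw [e, div_le_div_iff₀ (by positivity) (by positivity)] at l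
    linarith
  have t1 : 1 < t := by nlinarith
  have e6 : 1 / η ^ 6 = t ^ 12 := by
    rw [e]
    field_simp
  obtain ⟨P, P1, P2, P3⟩ := k6 t t1.le t2
  refine ⟨X₀ + 4 * Q + 1 + ⌈Q * t ^ 12⌉₊ + 2 * P +
    (Icc 1 (⌊Real.exp t⌋₊ * (Q + 1))).sup n0, fun N S W μ g N1 hp h μ0 μ1 g0 g1 hμ hg => ?_⟩
  have N0 : (0 : ℝ) < N := by exact_mod_cast hp.pos
  have kt : t ≤ ⌈t⌉₊ := Nat.le_ceil t
  have kt' : (⌈t⌉₊ : ℝ) ≤ 2 * t := by linarith [Nat.ceil_lt_add_one t0.le]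
  have k0 : 2 ≤ ⌈t⌉₊ := Nat.lt_ceil.2 (by simpa using t1)
  generalize ⌈t⌉₊ = k at kt kt' k0
  have hX : ((k * N : ℕ) : ℝ) ≤ 2 * t * N := by
    push_cast
    gcongr
  have NX : 2 * N ≤ k * N := Nat.mul_le_mul_right _ k0
  obtain ⟨T, b1, b2⟩ := sum_kk h1 η Q N (k * N)
  rw [← ht] at b1 hμ
  have A1 : 1 ≤ ⌊Real.exp t⌋₊ := Nat.le_floor (by simpa using t0.le)
  have k5 : ∀ n, 1 ≤ n → n ≤ ⌊Real.exp t⌋₊ * (Q + 1) →
      ∑ f, S.ω f * (S.a f n ^ 2 / n) ^ 2 ≤ 2 * tau n := fun n a1 a2 =>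
    k4 n a1 N S ((le_sup (f := n0) (mem_Icc.2 ⟨a1, a2⟩)).trans (by omega)) hp h
  have r := sum_le_sum fun a (ha : a ∈ Icc 1 ⌊Real.exp t⌋₊) =>
    row (η := η) (Q := Q) (X := k * N) (μ := μ + if a = 1 then g else 0) hK h hp W
      (fun M P H c => k3 N M S P H c h)
      (zero_le_one.trans d) t1.le t2 e6 (mem_Icc.1 ha).1 (by have := hp.pos; omega) hX (by omega)
      (Nat.ceil_le.1 (by omega))
      (by
        split_ifs with a1
        · subst a1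
          simpa [h.one] using hg
        · rw [add_zero]
          exact hμ a (mem_Icc.1 ha).1 ((Nat.le_floor_iff (Real.exp_pos t).le).1 (mem_Icc.1 ha).2))
      (k5 a (mem_Icc.1 ha).1 ((mem_Icc.1 ha).2.trans (Nat.le_mul_of_pos_right _ Q.succ_pos)))
      fun p hp => k5 _ (Nat.mul_pos (mem_Icc.1 ha).1 (mem_Icc.1 hp).1)
        (Nat.mul_le_mul (mem_Icc.1 ha).2 ((mem_Icc.1 hp).2.trans Q.le_succ))
  have r0 := one_ge hK (fun v a b => (k7 v (by linarith)).2.2.2 a b) c0.le hp.one_le NX A1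
    (fun q hq l => P2 q hq (e6 ▸ l)) b1 b2
  have r1 := card_ge hK h W T
  have r2 := b1 fun _ => 1
  simp only [mul_one] at r2
  simp only [add_mul, ite_mul, zero_mul] at r
  rw [sum_sub_distrib, sum_add_distrib, sum_ite_eq', if_pos (mem_Icc.2 ⟨le_rfl, A1⟩), ← mul_sum,
    ← mul_sum, ← r2, sum_comm (s := Icc 1 ⌊Real.exp t⌋₊) (t := W)] at r
  simp only [← mul_sum] at r
  simp only [b1] at r1
  have r3 := k1 N k T _ hp.one_le (by omega) b2
  have r4 := k2 (k * N) (by omega)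
  have r5 : ∑ a ∈ Icc 1 ⌊Real.exp t⌋₊, tau a / a ≤ 4 * t ^ 2 := by
    have z : (1 : ℝ) ≤ ⌊Real.exp t⌋₊ := by exact_mod_cast A1
    have : Real.log ⌊Real.exp t⌋₊ ≤ t :=
      (Real.log_le_iff_le_exp (by linarith)).2 (Nat.floor_le (Real.exp_pos t).le)
    refine (sum_tau _).trans ?_
    nlinarith [Real.log_nonneg z]
  have r6 : 36 * (1 + D) * N / t ^ 4 * ∑ a ∈ Icc 1 ⌊Real.exp t⌋₊, tau a / a ≤
      144 * (1 + D) * η * N := by
    refine (mul_le_mul_of_nonneg_left r5 (by positivity)).trans_eq ?_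
    rw [e]
    field_simp
    ring
  have r7 : 2 * D1 * N / k ^ 2 ≤ 2 * D1 * η * N := by
    rw [e, mul_right_comm _ (1 / t ^ 2), mul_one_div]
    gcongr
  have r8 : D2 * η ^ 2 * (k * N : ℕ) ≤ 2 * D2 * η * N := by
    have : η * t ≤ 1 := by
      rw [e, one_div_mul_eq_div, div_le_one (by positivity)]
      nlinarith
    refine (mul_le_mul_of_nonneg_left hX (by positivity)).trans ?_
    nlinarith [mul_le_mul_of_nonneg_left this (show 0 ≤ 2 * D2 * η * N by positivity)]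
  have r9 : KN N - (4 * D2 * η * N + 2 * D1 * η * N) ≤ ∑ n ∈ T, kap (n / N) := by linarith
  have r10 : c₁ / 2 * √η * N ≤ (N / P * P.totient : ℕ) := by
    have P0 : (0 : ℝ) < P := by exact_mod_cast P1
    have a1 : (N : ℝ) ≤ 2 * ((N / P : ℕ) * P) := by
      have := Nat.lt_div_mul_add (a := N) P1
      exact_mod_cast (by omega : N ≤ 2 * (N / P * P))
    calc _ ≤ c₁ / 2 * √η * (2 * ((N / P : ℕ) * P)) := by gcongr
      _ = (N / P : ℕ) * (c₁ / t * P) := by rw [es]; ring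
      _ ≤ _ := by
        rw [Nat.cast_mul]
        gcongr
  have r11 := mul_le_mul_of_nonneg_left ((mul_le_mul_of_nonneg_left
    (sub_le_sub r10 (r4.trans r8)) c0.le).trans r0) g0
  have r12 : g * (c * (2 * D2 * η * N)) ≤ 1 * (2 * (2 * D2 * η * N)) := by gcongr
  have := mul_le_mul_of_nonneg_left r9 μ0
  have := mul_le_of_le_one_left (show 0 ≤ 4 * D2 * η * N + 2 * D1 * η * N by positivity) μ1
  linarith

end Pool.Agent.MP_20b2fd_nt.H20
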