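import Pool.Agent.MP_20b2fd_nt.H20.T5
import Pool.Agent.MP_20b2fd_nt.H20.W1
import Pool.Agent.MP_20b2fd_nt.H20.W2

/-! The reduction of the problem to a weighted gain in the presence of an exceptional zero. -/

set_option autoImplicit false

namespace Pool.Agent.MP_20b2fd_nt.H20

open Finset Filter Topology H38

open Classical in
/-- the spectral data with given constants -/
def AutW (C : ℝ) (c₀ : ℝ → ℝ) : Prop :=
  1 ≤ C ∧ ∀ N : ℕ, N.Prime → ∃ S : Sp, S.Ok N C ∧ (∀ U : ℝ, 1 ≤ U → S.Bs N U (c₀ U)) ∧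
    (Hp N).ncard = (univ.filter fun f => S.ε f = 1).card ∧
    (Hn N).ncard = (univ.filter fun f => S.ε f = 1 ∧ S.L f ≠ 0).card

open Classical in
/-- the weighted gain in the presence of an exceptional zero -/
def ExcW (C : ℝ) (c₀ : ℝ → ℝ) : Prop :=
  ∀ C₀ : ℝ, 0 < C₀ → ∃ g κ : ℝ, 0 < g ∧ 0 < κ ∧ ∃ N₀ : ℕ, ∀ (N : ℕ) (S : Sp), N₀ ≤ N → N.Prime →
    Exc N κ C₀ → S.Ok N C → (∀ U : ℝ, 1 ≤ U → S.Bs N U (c₀ U)) →
    (1 + g) / 4 ≤ ∑ f ∈ univ.filter (fun f => S.ε f = 1 ∧ S.L f ≠ 0), S.ω f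

def FullS : Prop :=
  ∃ δ : ℝ, 0 < δ ∧ ∃ N₀ : ℕ, ∀ N : ℕ, N₀ ≤ N → N.Prime →
    1 / 2 + δ ≤ ((Hn N).ncard : ℝ) / (Hp N).ncard

theorem isS : IsS := isOf All.ph All.ker All.dl m1 cf m2 mer fm

theorem nl3 : Nl3S := nl3Of All.kap mer (nl1Of mer) nl2

theorem full (C : ℝ) (c₀ : ℝ → ℝ) (hA : AutW C c₀) (hE : ExcW C c₀) : FullS := by
  classical
  obtain ⟨hC, hA⟩ := hA
  obtain ⟨C₀, c0, hB⟩ := bey2
  obtain ⟨g₀, κ, g0', κ0, N₁, hE⟩ := hE C₀ c0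
  obtain ⟨δ₁, d1, N₂, hB⟩ := hB κ κ0
  obtain ⟨⟨cK, CK, hcK, hK⟩, hNu⟩ := All.nu
  obtain ⟨C', c', hC', c1, hNl⟩ := nl3 C hC
  obtain ⟨g, g0, g1, g2⟩ : ∃ g : ℝ, 0 < g ∧ g ≤ 1 ∧ g ≤ g₀ / 4 :=
    ⟨min 1 (g₀ / 4), by positivity, min_le_left _ _, min_le_right _ _⟩
  have K0 : 0 < CK := by
    obtain ⟨-, a1, a2⟩ := hK 1 le_rfl
    simp only [Nat.cast_one, mul_one] at a1 a2
    linarith
  obtain ⟨s, s0, s1, s2⟩ : ∃ s : ℝ, 0 < s ∧ s ≤ 1 / 2 ∧ C' * s ≤ g * c' / 2 :=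
    ⟨min (1 / 2) (g * c' / 2 / C'), by positivity, min_le_left _ _,
      (le_div_iff₀' (by positivity)).1 (min_le_right _ _)⟩
  obtain ⟨b, b0, b1, b2⟩ : ∃ b : ℝ, 0 < b ∧ b ≤ 1 ∧ b * CK ≤ g * c' * s / 2 :=
    ⟨min 1 (g * c' * s / 2 / CK), by positivity, min_le_left _ _,
      (le_div_iff₀ K0).1 (min_le_right _ _)⟩
  obtain ⟨N₃, hNl⟩ := hNl (s ^ 2) (by positivity) (by nlinarith)
  obtain ⟨N₄, hNu⟩ := hNu C (b * cK / 4) hC (by positivity)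
  obtain ⟨N₅, hI⟩ := FinA.unif (P := fun a N => ∀ S : Sp, N.Prime → S.Ok N C →
      (∀ U : ℝ, 1 ≤ U → S.Bs N U (c₀ U)) → (1 - b) / 4 * a ≤
        ∑ f ∈ univ.filter (fun f => S.ε f = 1 ∧ S.L f ≠ 0), S.ω f * S.a f a ^ 2)
    (Real.exp ((s ^ 2) ^ (-1 / 2 : ℝ))) fun a ha _ =>
      (isS C b c₀ a hC b0 ha).imp fun N₀ h N hN S => h N S hN
  refine ⟨min δ₁ (b / 2), by positivity, N₁ + N₂ + N₃ + N₄ + N₅, fun N hN hp => ?_⟩
  rcases hB N (by omega) hp with h | h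
  · exact le_trans (by linarith [min_le_left δ₁ (b / 2)]) h
  obtain ⟨S, hS, bs, e1, e2⟩ := hA N hp
  have k0 := hE N S (by omega) hp h hS bs
  have k1 := hNl N S (univ.filter fun f => S.ε f = 1 ∧ S.L f ≠ 0) ((1 - b) / 4) g (by omega) hp hS
    (by linarith) (by linarith) g0.le g1
    (fun a ha ha' => hI N (by omega) a ha ha' S hp hS bs) (by linarith)
  have k2 := hNu N S (by omega) hp hS
  have N0 : (0 : ℝ) < N := Nat.cast_pos.2 hp.pos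
  obtain ⟨-, a1, a2⟩ := hK N hp.pos
  have k3 : ((univ.filter fun f => S.ε f = 1 ∧ S.L f ≠ 0).card : ℝ) ≤
      (univ.filter fun f => S.ε f = 1).card :=
    Nat.cast_le.2 (card_le_card fun f hf => mem_filter.2 ⟨mem_univ f, (mem_filter.1 hf).2.1⟩)
  rw [Real.sqrt_sq s0.le] at k1
  rw [e1, e2]
  generalize ((univ.filter fun f => S.ε f = 1 ∧ S.L f ≠ 0).card : ℝ) = W at *
  generalize ((univ.filter fun f => S.ε f = 1).card : ℝ) = E at *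
  have K1 : 0 < KN N := lt_of_lt_of_le (by positivity) a1
  have a3 := mul_le_mul_of_nonneg_left a1 b0.le
  have a4 := mul_le_mul_of_nonneg_left a2 b0.le
  have a5 := mul_le_mul_of_nonneg_right b2 N0.le
  have a6 := mul_le_mul_of_nonneg_right s2 (mul_pos s0 N0).le
  have a7 : (1 + 3 * b) / 4 * KN N ≤ W := by linarith
  have a8 : 0 < b * KN N := by positivity
  have a9 : b * (b * KN N) ≤ b * KN N := mul_le_of_le_one_left a8.le b1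
  refine le_trans (add_le_add_right (min_le_right _ _) _) ?_
  rw [le_div_iff₀ (by linarith)]
  have : (1 / 2 + b / 2) * E ≤ (1 / 2 + b / 2) * (KN N / 2 + b * KN N / 4) :=
    mul_le_mul_of_nonneg_left (by linarith) (by linarith)
  linarith

end Pool.Agent.MP_20b2fd_nt.H20
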