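import Pool.Agent.MP_20b2fd_nt.H20.Xw1
import Pool.Agent.MP_20b2fd_nt.H39.SpecM

/-! The two descriptions of the short vector agree. -/

namespace Pool.Agent.MP_20b2fd_nt.H20

open H38

theorem jx_eq (ε : ℝ) (N : ℕ) : H39.JX ε N = JX ε N := rfl

theorem ax_eq (N : ℕ) : H39.AX N = AN N := rfl

theorem wx_eq {ε : ℝ} (h0 : 0 < ε) (h1 : ε ≤ 1 / 4) (N : ℕ) : H39.wx ε N = wX ε N := by
  funext k
  have u0 : 0 ≤ Real.log k / LX ε N := div_nonneg (Real.log_natCast_nonneg k)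
    (mul_nonneg (by linarith) (Real.log_natCast_nonneg N))
  have e : H39.f1 ε (Real.log k / LX ε N) = Fw ε (Real.log k / LX ε N) := by
    rw [H39.f1, Fw, Real.smoothTransition.one_of_one_le (x := _ + 2) (by linarith),
      Real.smoothTransition.one_of_one_le (x := (1 + _) / ε) ((one_le_div h0).2 (by linarith))]
  unfold H39.wx H39.wh wX
  rw [← e]
  rfl

theorem xx_eq {ε : ℝ} (h0 : 0 < ε) (h1 : ε ≤ 1 / 4) (N : ℕ) : H39.xX ε N = xX ε N := by
  funext i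
  rw [H39.xX, wx_eq h0 h1]
  rfl

theorem xk : H39.XkS := by
  intro η E h
  refine ⟨min η 1 / 6, by positivity, fun ε e0 e1 => ?_⟩
  have a1 := min_le_left η 1
  have a2 := min_le_right η 1
  obtain ⟨N₀, k⟩ := xwS ε (min η 1) E e0 (by linarith) a2
  refine ⟨N₀, fun N hN => ?_⟩
  obtain ⟨b1, b2, b3, b4, b5, b6, b7⟩ := k N hN
  rw [jx_eq, ax_eq, xx_eq e0 (by linarith)]
  refine ⟨b1, b2, b3, b4, b5, b6.trans (by gcongr), fun a c c1 c2 c3 => (b7 a c c1 c2 c3).trans ?_⟩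
  have := Real.pi_pos
  gcongr

end Pool.Agent.MP_20b2fd_nt.H20
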