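import Pool.Agent.MP_20b2fd_nt.H20.SpecW
import Pool.Agent.MP_20b2fd_nt.H20.W1

/-! The short vector with a smooth cutoff is admissible. -/

set_option autoImplicit false

namespace Pool.Agent.MP_20b2fd_nt.H20

open Finset Filter Topology H38 ArithmeticFunction W1A
open scoped Real

namespace XwA

theorem inv_le {a b : ℕ} (ha : 1 ≤ a) (hb : 1 ≤ b) :
    (1 : ℝ) / (a * b).totient ≤ 1 / a.totient * (1 / b.totient) := by
  have h1 : (0 : ℝ) < a.totient := by exact_mod_cast Nat.totient_pos.2 ha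
  have h2 : (0 : ℝ) < b.totient := by exact_mod_cast Nat.totient_pos.2 hb
  rw [one_div_mul_one_div]
  refine one_div_le_one_div_of_le (by positivity) ?_
  exact_mod_cast Nat.totient_super_multiplicative a b

theorem gq_dvd {y : ℝ} {r a b : ℕ} (h : a * b ∈ Gq r y) : a ∈ Gq 1 y ∧ b ∈ Gq 1 y := by
  obtain ⟨⟨h1, h2⟩, h3, -⟩ := mem_gq.1 h
  have a0 : 0 < a := Nat.pos_of_mul_pos_right h1
  have b0 : 0 < b := Nat.pos_of_mul_pos_left h1
  exact ⟨mem_gq.2 ⟨⟨a0, (Nat.le_mul_of_pos_right _ b0).trans h2⟩, h3.of_mul_left, by simp⟩,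
    mem_gq.2 ⟨⟨b0, (Nat.le_mul_of_pos_left _ a0).trans h2⟩, h3.of_mul_right, by simp⟩⟩

theorem tau_phi (y : ℝ) : ∑ j ∈ Gq 1 y, tau j / j.totient ≤
    (∑ k ∈ Gq 1 y, (1 : ℝ) / k.totient) * ∑ k ∈ Gq 1 y, (1 : ℝ) / k.totient := by
  rw [sum_mul_sum, ← sum_product']
  refine le_trans (sum_le_sum fun j hj => ?_) (sum_fiberwise_le_sum_of_sum_fiber_nonneg
    (g := fun x : ℕ × ℕ => x.1 * x.2) (t := Gq 1 y) fun _ _ => sum_nonneg fun _ _ => by positivity)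
  have e : tau j / j.totient = ∑ x ∈ j.divisorsAntidiagonal, (1 : ℝ) / j.totient := by
    rw [Nat.sum_divisorsAntidiagonal fun _ _ => (1 : ℝ) / j.totient, sum_const, nsmul_eq_mul, tau,
      mul_one_div]
  rw [e]
  refine le_trans (sum_le_sum fun x hx => ?_)
    (sum_le_sum_of_subset_of_nonneg (fun x hx => ?_) fun _ _ _ => by positivity)
  · obtain ⟨h1, -⟩ := Nat.mem_divisorsAntidiagonal.1 hx
    obtain ⟨a1, a2⟩ := gq_dvd (h1 ▸ hj)
    rw [← h1]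
    exact inv_le (mem_gq.1 a1).1.1 (mem_gq.1 a2).1.1
  · obtain ⟨h1, -⟩ := Nat.mem_divisorsAntidiagonal.1 hx
    exact mem_filter.2 ⟨mem_product.2 (gq_dvd (h1 ▸ hj)), h1⟩

theorem abs_xw {r : ℕ} {y : ℝ} {w : ℕ → ℝ} (h : ∀ k, 0 ≤ w k ∧ w k ≤ ws r y k) :
    ∑ m ∈ Icc 1 ⌊y⌋₊, |xw ⌊y⌋₊ w m| ≤ (∑ k ∈ Gq 1 y, (1 : ℝ) / k.totient) ^ 3 := by
  classical
  have t0 : ∀ k, 0 ≤ tau k := fun k => Nat.cast_nonneg _
  have e : ∀ u : ℕ → ℝ, ∑ k ∈ Gq 1 y, u k = ∑ k ∈ Icc 1 ⌊y⌋₊, if k ∈ Gq 1 y then u k else 0 :=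
    fun u => by
      rw [sum_ite_mem, inter_eq_right.2 (show Gq 1 y ⊆ Icc 1 ⌊y⌋₊ from filter_subset _ _)]
  rw [pow_succ', sq]
  refine le_trans ?_ (mul_le_mul_of_nonneg_left (tau_phi y) (sum_nonneg fun _ _ => by positivity))
  rw [e, e fun j => tau j / j.totient, sum_mul_sum]
  refine sum_le_sum fun m hm => (abs_sum_le_sum_abs _ _).trans (sum_le_sum fun j hj => ?_)
  have m0 : (0 : ℝ) < m := by exact_mod_cast (mem_Icc.1 hm).1
  have j0 : (0 : ℝ) < j := by exact_mod_cast (mem_Icc.1 hj).1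
  have h2 : |(moebius m : ℝ)| ≤ 1 := by exact_mod_cast abs_moebius_le_one
  have h3 := t0 j
  have h4 := (h (m * j)).1
  rw [abs_div, abs_mul, abs_mul, abs_of_nonneg h3, abs_of_nonneg h4, abs_of_pos (mul_pos m0 j0)]
  by_cases g : m * j ∈ Gq r y
  · rw [if_pos (gq_dvd g).1, if_pos (gq_dvd g).2]
    have h5 := (h (m * j)).2
    rw [ws, if_pos g] at h5
    calc _ ≤ 1 * tau j * (((m * j : ℕ) : ℝ) / (m * j).totient) / (m * j) := by gcongr
      _ = tau j * (1 / (m * j).totient) := by push_cast; field_simp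
      _ ≤ tau j * (1 / m.totient * (1 / j.totient)) :=
        mul_le_mul_of_nonneg_left (inv_le (mem_Icc.1 hm).1 (mem_Icc.1 hj).1) h3
      _ = _ := by ring
  · have h5 := (h (m * j)).2
    rw [ws, if_neg g] at h5
    rw [le_antisymm h5 h4, mul_zero, zero_div]
    split_ifs <;> positivity

end XwA

open XwA in
theorem xwOf (Dl : DlS) (M1 : M1S) (Cf : CfS) (M2 : M2S) (Me : MerS) : XwS := by
  classical
  intro ε η E e0 e1 η1
  have η0 : 0 < η := by linarith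
  obtain ⟨d1, d2, d3, d4, d5, d6⟩ := Dl.2 1 le_rfl
  obtain ⟨C₁, c1, M3⟩ := M2 1 le_rfl
  obtain ⟨C₂, c2, M2⟩ := M2 (30 * 1) (by omega)
  obtain ⟨D, D1, Me, -⟩ := Me
  have V0 : 0 < Vr 1 := lt_of_lt_of_le (by positivity) d4
  obtain ⟨T, hT⟩ : ∃ T : ℕ, 1 / (η / 4000) ≤ T := ⟨_, Nat.le_ceil _⟩
  obtain ⟨N₀, h0⟩ := eventually_atTop.1 ((eventually_ge_atTop 2).and <|
    (XnA.ev 30 (s := ε) e0).and <| (evl (1 / Vr 1)).and <| (evl C₁).and <|
    (evl (∑ j ∈ J0 1, |Dj 1 j|)).and <| (evl (C₂ / (Vr 1 * (38 / 100 * η)))).and <|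
    (evl ((T + 1) / (η / 4000))).and <| (evl ((C₂ + 2 * D) / (Vr 1 * (38 / 100 * η)))).and <|
    (evl (2 * (|Bl (J0 1) id (Dj 1) fun m => tau m * Real.log m| + |E|) /
      (Vr 1 ^ 2 * (η / 100)))).and <| evl (C₂ / (Vr 1 * ε)))
  refine ⟨N₀, fun N hN => ?_⟩
  obtain ⟨n2, f2, f3, f4, f1, f5, f6, f7, f8, f9⟩ := h0 N hN
  have n1 : (1 : ℝ) < N := by exact_mod_cast n2
  have N0 : (0 : ℝ) < N := by linarith
  obtain ⟨y, hy⟩ : ∃ y, y = (N : ℝ) ^ (1 / 2 - 2 * ε) := ⟨_, rfl⟩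
  obtain ⟨l, hl⟩ : ∃ l, l = Real.log N / 2 := ⟨_, rfl⟩
  have hL : Real.log N = 2 * l := by rw [hl]; ring
  have hA : AN N = Vr 1 * l := by rw [hl, AN]
  have hK : KX ε N = ⌊y⌋₊ := by rw [hy, KX]
  rw [← hl] at f1 f3 f4 f5 f6 f7 f8 f9
  rw [div_le_iff₀ (by positivity)] at f3 f5 f6 f7 f8 f9
  have l1 : 1 ≤ l := c1.trans f4
  have y1 : 1 ≤ y := hy ▸ Real.one_le_rpow n1.le (by linarith)
  have ly : Real.log y = l * (1 - 4 * ε) := by rw [hy, Real.log_rpow N0, hl]; ring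
  have lx : LX ε N = Real.log y := by rw [hy, Real.log_rpow N0, LX]
  have ly0 : 0 < Real.log y := by rw [ly]; exact mul_pos (by linarith) (by linarith)
  have ly1 : Real.log y ≤ l := by
    rw [ly]
    exact mul_le_of_le_one_right (zero_le_one.trans l1) (by linarith only [e0])
  have wn : ∀ k, wX ε N k ≠ 0 → k ∈ Gq (30 * 1) y := fun k h => by
    obtain ⟨a1, a2, a3, a4⟩ := wX_ne e0 (by linarith) n2 h
    exact mem_gq.2 ⟨⟨a3, hK ▸ a4⟩, a1, a2⟩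
  have wl : ∀ k, 0 ≤ wX ε N k ∧ wX ε N k ≤ ws (30 * 1) y k := fun k => by
    by_cases h : wX ε N k = 0
    · rw [h]
      exact ⟨le_rfl, (ws_ok _ _ _).1⟩
    have g := wn k h
    rw [ws, if_pos g, wX, if_pos (mem_gq.1 g).2]
    exact ⟨mul_nonneg (by positivity) (fw_nonneg _ _),
      mul_le_of_le_one_right (by positivity) (fw_le _ _)⟩
  have xc : ∀ j, xw ⌊y⌋₊ (wX ε N) j ≠ 0 → j.Coprime (30 * 1) := fun m h => by
    obtain ⟨j, -, hj⟩ := exists_ne_zero_of_sum_ne_zero h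
    have : wX ε N (m * j) ≠ 0 := fun e => hj (by simp [e])
    exact Nat.Coprime.coprime_mul_right (mem_gq.1 (wn _ this)).2.2
  obtain ⟨g1, g2⟩ := M2 y y1
  obtain ⟨G, hG⟩ : ∃ G, G = ∑ k ∈ Gq (30 * 1) y, (1 : ℝ) / k.totient := ⟨_, rfl⟩
  change |_ - Vr 1 * _| ≤ _ at g1
  change _ ≤ Vr 1 * _ / 2 + _ at g2
  rw [← hG, abs_le] at g1
  have G1 : G ≤ Vr 1 * l * (1 + 38 / 100 * η) := by
    linarith only [mul_le_mul_of_nonneg_left ly1 V0.le, g1.2, f5]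
  have G2 : G ≤ 2 * (Vr 1 * l) := G1.trans (by
    rw [mul_comm 2]
    gcongr
    linarith)
  obtain ⟨m1, m2, m3⟩ := M1 ⌊y⌋₊ (wX ε N) fun k h =>
    ⟨(mem_gq.1 (wn k h)).2.1, (mem_gq.1 (wn k h)).1.2⟩
  obtain ⟨k1, k2, k3, k4⟩ := Cf (J0 1) (Icc 1 ⌊y⌋₊) (Dj 1) (xw ⌊y⌋₊ (wX ε N))
    (fun i hi => (d6 i hi).1) (fun j hj => (mem_Icc.1 hj).1)
    fun i hi j _ h => (d6 i hi).2.2 j (xc j h)
  replace k4 := k4 1 fun j _ _ => Nat.coprime_one_left j
  rw [d3, m1, Nat.cast_one, one_mul] at k4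
  simp only [Nat.gcd_one_left, show sig 1 = 1 by simp [sig], mul_one] at k4
  rw [d1, zero_mul] at k1
  rw [Nat.cast_one, one_mul] at d2
  have hn : ∀ i ∈ J0 1 ×ˢ Icc 1 ⌊y⌋₊, 1 ≤ nn i ∧ (nn i : ℝ) ≤ (N : ℝ) ^ (1 / 2 - ε) := fun i hi => by
    obtain ⟨i1, i2⟩ := mem_product.1 hi
    obtain ⟨j1, j2, -⟩ := d6 _ i1
    obtain ⟨j3, j4⟩ := mem_Icc.1 i2
    refine ⟨Nat.mul_pos j1 j3, ?_⟩
    have j5 : (i.1 : ℝ) ≤ 30 := by exact_mod_cast j2
    have j6 : (i.2 : ℝ) ≤ y := (Nat.le_floor_iff (by linarith)).1 j4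
    rw [nn, Nat.cast_mul, show 1 / 2 - ε = ε + (1 / 2 - 2 * ε) by ring, Real.rpow_add N0, ← hy]
    gcongr
    exact j5.trans f2.le
  rw [hA]
  unfold XOk JX xX
  rw [hK]
  refine ⟨by linarith, by nlinarith, hn, k1, ?_, ?_, fun a c a0 a1 hc => ?_⟩
  · have b1 := (abs_le.1 (M3 y y1).1).2
    simp only [Nat.totient_one, Nat.cast_one, div_one, one_mul] at b1
    have b2 : (∑ k ∈ Gq 1 y, (1 : ℝ) / k.totient) ^ 3 ≤ Real.log N ^ 3 :=
      pow_le_pow_left₀ (sum_nonneg fun _ _ => by positivity) (by linarith) 3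
    have L1 : 1 ≤ Real.log N := by linarith
    simp only [abs_mul]
    rw [sum_product]
    dsimp only
    rw [← sum_mul_sum]
    calc _ ≤ Real.log N * Real.log N ^ 3 :=
          mul_le_mul (by linarith) ((abs_xw wl).trans b2) (sum_nonneg fun _ _ => abs_nonneg _)
            (by linarith)
      _ = Real.log N ^ 4 := by ring
      _ ≤ _ := pow_le_pow_right₀ L1 (by norm_num)
  · rw [k4, abs_le]
    have up : ∑ k ∈ Icc 1 ⌊y⌋₊, wX ε N k / k ≤ G := by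
      rw [hG, ← s1]
      exact sum_le_sum fun k _ => div_le_div_of_nonneg_right (wl k).2 (Nat.cast_nonneg _)
    have y0 : 0 < y := by linarith
    have y2 : 1 ≤ y ^ (1 - ε) := Real.one_le_rpow y1 (by linarith)
    have y3 : y ^ (1 - ε) ≤ y := Real.rpow_le_self_of_one_le y1 (by linarith)
    have lo : ∑ k ∈ Gq (30 * 1) (y ^ (1 - ε)), (1 : ℝ) / k.totient ≤
        ∑ k ∈ Icc 1 ⌊y⌋₊, wX ε N k / k := by
      refine le_trans (sum_le_sum fun k hk => le_of_eq ?_) (sum_le_sum_of_subset_of_nonneg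
        ((filter_subset _ _).trans (Icc_subset_Icc_right (Nat.floor_le_floor y3)))
        fun k _ _ => div_nonneg (wl k).1 (Nat.cast_nonneg _))
      obtain ⟨⟨a1, a2⟩, a3⟩ := mem_gq.1 hk
      have k0 : (0 : ℝ) < k := by exact_mod_cast a1
      have a4 := Real.log_le_log k0 ((Nat.le_floor_iff (by linarith)).1 a2)
      rw [Real.log_rpow y0] at a4
      rw [wX, if_pos a3, fw_one e0, mul_one]
      · field_simp
      · rw [lx, abs_of_nonneg (div_nonneg (Real.log_natCast_nonneg k) ly0.le), div_le_iff₀ ly0]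
        exact a4
    have g3 := (abs_le.1 (M2 _ y2).1).1
    change _ ≤ _ - Vr 1 * _ at g3
    rw [Real.log_rpow y0, ly] at g3
    have A0 : 0 ≤ Vr 1 * l := by positivity
    have b1 := mul_le_mul_of_nonneg_right e1 A0
    have b2 : 0 ≤ Vr 1 * l * ε ^ 2 := by positivity
    have b3 : 0 ≤ Vr 1 * l * η := by positivity
    exact ⟨by linarith only [lo, g3, b1, b2, f9], by linarith only [up, G1, b3]⟩
  have t0 := s2 (r := 30 * 1) (y := y) fun _ => 1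
  simp only [mul_one] at t0
  have sq : ∀ k, k.totient * wX ε N k ^ 2 / (k : ℝ) ^ 2 ≤
      k.totient * ws (30 * 1) y k ^ 2 / (k : ℝ) ^ 2 := fun k => by
    have := (wl k).1
    gcongr
    exact (wl k).2
  have qT : ∑ k ∈ Icc 1 ⌊y⌋₊, k.totient * wX ε N k ^ 2 / (k : ℝ) ^ 2 ≤ G := by
    rw [hG, ← t0]
    exact sum_le_sum fun k _ => sq k
  have qA : ∑ k ∈ Icc 1 ⌊y⌋₊, k.totient * wX ε N k ^ 2 / (k : ℝ) ^ 2 *
      ∑ p ∈ k.primeFactors, Real.log p / ((p : ℝ) - 1) ≤ Vr 1 * l ^ 2 * (η / 1000) := by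
    calc _ ≤ ∑ k ∈ Icc 1 ⌊y⌋₊, k.totient * wX ε N k ^ 2 / (k : ℝ) ^ 2 * (l * (η / 2000)) := by
          refine sum_le_sum fun k hk => mul_le_mul_of_nonneg_left ?_ (by positivity)
          obtain ⟨h1, h2⟩ := mem_Icc.1 hk
          have b1 := mul_le_mul_of_nonneg_left ((Real.log_le_log (by exact_mod_cast h1)
            ((Nat.le_floor_iff (zero_le_one.trans y1)).1 h2 : (k : ℝ) ≤ y)).trans ly1) η0.le
          have b2 := Mq0A.psum k T (η / 4000) h1 (by positivity) hT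
          linarith only [b1, b2, f6]
      _ ≤ 2 * (Vr 1 * l) * (l * (η / 2000)) := by
          rw [← sum_mul]
          exact mul_le_mul_of_nonneg_right (qT.trans G2) (by positivity)
      _ = _ := by ring
  have qB := (s3 (r := 30 * 1) (D := D) y1 fun x hx => by
    have := (abs_le.1 (Me 1 x le_rfl hx).2).2
    rw [div_one] at this
    linarith).trans (add_le_add g2 (le_of_eq (by rw [← hG])))
  have qB0 : ∑ k ∈ Icc 1 ⌊y⌋₊, k.totient * wX ε N k / (k : ℝ) ^ 2 *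
        ∑ p ∈ pz (⌊y⌋₊ : ℕ), Real.log p / p * wX ε N (k * p) ≤
      ∑ k ∈ Icc 1 ⌊y⌋₊, k.totient * ws (30 * 1) y k / (k : ℝ) ^ 2 *
        ∑ p ∈ pz (⌊y⌋₊ : ℕ), Real.log p / p * ws (30 * 1) y (k * p) := by
    refine sum_le_sum fun k _ => ?_
    have lp : ∀ p : ℕ, 0 ≤ Real.log p / p := fun p =>
      div_nonneg (Real.log_natCast_nonneg p) (Nat.cast_nonneg _)
    have := (ws_ok (30 * 1) y k).1
    refine mul_le_mul ?_ (sum_le_sum fun p _ => mul_le_mul_of_nonneg_left (wl _).2 (lp p))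
      (sum_nonneg fun p _ => mul_nonneg (lp p) (wl _).1) (by positivity)
    gcongr
    exact (wl k).2
  have qB' : Vr 1 * Real.log y ^ 2 / 2 + C₂ * Real.log y + D * G ≤
      Vr 1 * l ^ 2 * (1 / 2 + 38 / 100 * η) := by
    have b1 : Vr 1 * Real.log y ^ 2 / 2 ≤ Vr 1 * l ^ 2 / 2 := by gcongr
    have b2 : C₂ * Real.log y ≤ C₂ * l := by gcongr
    have b3 : D * G ≤ D * (2 * (1 * l)) := by
      refine mul_le_mul_of_nonneg_left (G2.trans ?_) (by linarith)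
      gcongr
    linarith only [mul_le_mul_of_nonneg_right f7 (zero_le_one.trans l1), b1, b2, b3]
  have key := Mo2A.num (c := c) (a := 1) (D := Bl (J0 1) id (Dj 1) fun m => tau m * Real.log m)
    η0 η1 a0 a1 (by linarith [Real.pi_gt_three]) zero_le_one V0.le d5 (by linarith)
    (sum_nonneg fun k _ => by positivity) (qT.trans G1) qA (qB0.trans (qB.trans qB'))
    (by linarith only [f8, hc, le_abs_self E])
  have e := Mo2A.bl_lin (J0 1 ×ˢ Icc 1 ⌊y⌋₊) nn (fun i => Dj 1 i.1 * xw ⌊y⌋₊ (wX ε N) i.2)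
    (fun i hi => (hn i hi).1) (N := N) (by omega) a c fun _ => 0
  simp only [mul_zero, add_zero] at e
  rw [e, bl_zero _ hn fun _ _ _ => rfl, k2, k3, d2, m2, m3, hL]
  simp only [one_mul] at key
  have : 0 ≤ π * (Vr 1 ^ 2 * l ^ 2 * η) := by positivity
  linarith only [key, this]

end Pool.Agent.MP_20b2fd_nt.H20
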