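import Pool.Agent.MP_20b2fd_nt.H20.Xw
import Pool.Agent.MP_20b2fd_nt.H20.W3

/-! The admissible short vector, and the reduction with the explicit constant. -/

namespace Pool.Agent.MP_20b2fd_nt.H20

open H38

theorem xwS : XwS := xwOf All.dl m1 cf m2 mer

theorem full2 (hA : Aut2S)
    (hE : ∀ (C : ℝ) (c₀ : ℝ → ℝ), 1 ≤ C → C0OK c₀ → ExcW C c₀) : FullS := by
  obtain ⟨C, c₀, h1, h2, h3⟩ := hA
  exact full C c₀ ⟨h1, h3⟩ (hE C c₀ h1 h2)

end Pool.Agent.MP_20b2fd_nt.H20
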